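import Mathlib

/-!
# Rank factorisations and minors
-/

set_option autoImplicit false

namespace Pool.Agent.RW

open Matrix Module

variable {K : Type} [Field K] {m n : ℕ}

/-- A matrix of rank `p` is a product of a matrix with `p` columns and a matrix with `p` rows. -/
theorem rank_factor (A : Matrix (Fin m) (Fin n) K) {p : ℕ} (hp : A.rank = p) :
    ∃ (X : Matrix (Fin m) (Fin p) K) (Y : Matrix (Fin p) (Fin n) K), A = X * Y := by
  subst hp
  let b : Basis (Fin A.rank) K (LinearMap.range A.mulVecLin) := finBasisOfFinrankEq K _ rfl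
  refine ⟨Matrix.of (fun i j => (b j : Fin m → K) i), Matrix.of (fun j i =>
    b.repr ⟨A.mulVecLin (Pi.single i 1), LinearMap.mem_range_self _ _⟩ j), ?_⟩
  ext i' i
  rw [Matrix.mul_apply]
  have h := b.sum_repr ⟨A.mulVecLin (Pi.single i 1), LinearMap.mem_range_self _ _⟩
  have h2 := congrArg (fun v : LinearMap.range A.mulVecLin => (v : Fin m → K) i') h
  simp only [Submodule.coe_sum, Submodule.coe_smul, Finset.sum_apply, Pi.smul_apply,
    smul_eq_mul, mulVecLin_apply, mulVec_single_one] at h2
  rw [← show A.col i i' = A i' i from rfl, ← h2]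
  refine Finset.sum_congr rfl (fun j _ => ?_)
  simp only [of_apply]
  rw [mul_comm]
  simp

theorem isUnit_of_rank {p : ℕ} {Z : Matrix (Fin p) (Fin p) K} (h : Z.rank = p) : IsUnit Z := by
  rw [← mulVec_surjective_iff_isUnit]
  have h1 : LinearMap.range Z.mulVecLin = ⊤ := by
    apply Submodule.eq_top_of_finrank_eq
    rw [finrank_fintype_fun_eq_card, Fintype.card_fin]
    exact h
  intro v
  obtain ⟨x, hx⟩ := LinearMap.range_eq_top.1 h1 v
  exact ⟨x, hx⟩

theorem isUnit_of_rank_mul {p : ℕ} {X : Matrix (Fin m) (Fin p) K} {Z : Matrix (Fin p) (Fin p) K}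
    {Y : Matrix (Fin p) (Fin n) K} (h : p ≤ (X * Z * Y).rank) : IsUnit Z := by
  apply isUnit_of_rank
  refine le_antisymm ((rank_le_width Z)) ?_
  refine h.trans ((rank_mul_le_left _ _).trans (rank_mul_le_right _ _))

/-- Linearly independent rows. -/
theorem exists_rows (A : Matrix (Fin m) (Fin n) K) {p : ℕ} (hp : A.rank = p) :
    ∃ e : Fin p → Fin m, LinearIndependent K (fun i => A.row (e i)) := by
  have hfr : finrank K (Submodule.span K (Set.range A.row)) = p := by
    rw [← rank_eq_finrank_span_row, hp]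
  obtain ⟨g, h1, -, h3⟩ := Submodule.exists_fun_fin_finrank_span_eq K (Set.range A.row)
  choose e he using h1
  refine ⟨fun i => e (Fin.cast hfr.symm i), ?_⟩
  have h6 : (fun i => A.row (e (Fin.cast hfr.symm i))) = g ∘ (Fin.cast hfr.symm) := by
    funext i
    rw [Function.comp_apply, ← he]
  rw [h6]
  exact h3.comp _ (Fin.cast_injective _)

/-- A nonzero minor of size the rank. -/
theorem exists_minor (A : Matrix (Fin m) (Fin n) K) {p : ℕ} (hp : A.rank = p) :
    ∃ (e : Fin p → Fin m) (f : Fin p → Fin n), (A.submatrix e f).det ≠ 0 := by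
  obtain ⟨e, he⟩ := exists_rows A hp
  have hB : (A.submatrix e id).rank = p := by
    have : LinearIndependent K (A.submatrix e id).row := he
    rw [this.rank_matrix, Fintype.card_fin]
  obtain ⟨f, hf⟩ := exists_rows (A.submatrix e id)ᵀ (p := p) (by rw [rank_transpose, hB])
  refine ⟨e, f, ?_⟩
  have h5 : IsUnit ((A.submatrix e f)ᵀ) := by
    rw [← linearIndependent_rows_iff_isUnit]
    exact hf
  rw [isUnit_transpose, isUnit_iff_isUnit_det] at h5
  exact h5.ne_zero

theorem le_rank_of_minor {j : ℕ} {A : Matrix (Fin m) (Fin n) K} {e : Fin j → Fin m}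
    {f : Fin j → Fin n} (h : (A.submatrix e f).det ≠ 0) : j ≤ A.rank := by
  have h1 := rank_of_det_ne_zero (A := A.submatrix e f) h
  rw [Fintype.card_fin] at h1
  rw [← h1]
  exact rank_submatrix_le _ _ _

end Pool.Agent.RW
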