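import Mathlib
import Pool.Agent.Work.MP_3c5c20_lc.Lang

/-!
# Branching programs of constant width

A branching program of width `r` is a list of triples `(x, A, B)`, where `x` is a variable and `A`,
`B` are `r × r` integer matrices; it stands for the product of the matrices `A + x • B`. Variables
and integers are given by strings of binary digits.
-/

set_option autoImplicit false

namespace Pool.Agent.PIT

open MvPolynomial

/-- A sign and a list of binary digits. -/
abbrev BInt : Type := Bool × List Bool

/-- The integer with this sign and these digits. -/
def bval (c : BInt) : ℤ := if c.1 then -(natOf c.2 : ℤ) else (natOf c.2 : ℤ)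

/-- A matrix whose entries are integers in binary. -/
abbrev BMat (r : ℕ) : Type := Fin r → Fin r → BInt

/-- Branching programs of width `r`: lists of a variable and two matrices. -/
abbrev BP (r : ℕ) : Type := List (Name × (BMat r × BMat r))

/-- The product of the matrices `A + x • B`. -/
noncomputable def bpMat {r : ℕ} (p : BP r) : Matrix (Fin r) (Fin r) (MvPolynomial Name ℤ) :=
  (p.map (fun l => Matrix.of (fun i j => C (bval (l.2.1 i j)) + C (bval (l.2.2 i j)) * X l.1))).prod

/-- The polynomial computed by a branching program of positive width: the first entry of the first
row of the product. -/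
noncomputable def bpPoly {r : ℕ} (p : BP (r + 1)) : MvPolynomial Name ℤ := bpMat p 0 0

/-- The entries of a matrix, row by row. -/
def ents {r : ℕ} (A : BMat r) : List BInt :=
  (List.finRange r).flatMap (fun i => (List.finRange r).map (fun j => A i j))

/-- The strings of bits of which a program consists: for each triple the name of the variable, and
for each entry of the two matrices the sign followed by the digits. -/
def bpStrings {r : ℕ} (p : BP r) : List (List Bool) :=
  p.flatMap (fun l => l.1 :: ((ents l.2.1).map (fun c => c.1 :: c.2) ++
    (ents l.2.2).map (fun c => c.1 :: c.2)))

/-- A self-delimiting code of a string of bits. -/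
def blk (l : List Bool) : List Bool := l.flatMap (fun b => [true, b]) ++ [false]

/-- The binary encoding of programs. -/
def bpCode {r : ℕ} (p : BP r) : List Bool := (bpStrings p).flatMap blk

/-- At every cut of the program at most `c` variables occur both before and after the cut. -/
def ThinBP {r : ℕ} (c : ℕ) (p : BP r) : Prop :=
  ∀ p1 p2 : BP r, p = p1 ++ p2 →
    Set.encard {u : Name | u ∈ p1.map Prod.fst ∧ u ∈ p2.map Prod.fst} ≤ c

/-- The programs of width `r` that arise from programs for which at every cut at most `c` variables
occur on both sides by identifying variables, where at most `k` variables are identified with each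
other. -/
def IdentBP (r k c : ℕ) : Set (BP r) :=
  {p | ∃ (g : BP r) (φ : Name → Name), ThinBP c g ∧
    (∀ v : Name, Set.encard {u : Name | φ u = v ∧ u ∈ g.map Prod.fst} ≤ k) ∧
    p = g.map (fun l => (φ l.1, l.2))}

end Pool.Agent.PIT
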