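import Mathlib
import Pool.Agent.Work.RK.Reg
import Pool.Agent.Work.RW.Rank

/-!
# Words of matrices with polynomial entries
-/

set_option autoImplicit false

namespace Pool.Agent.RW

open Function Polynomial Matrix Pool.Agent.RK

variable {K : Type} [Field K] {ι V : Type} {r : ℕ}

/-- A word: a list of square matrices with polynomial entries, each with a label. -/
abbrev Word (K : Type) [Field K] (V : Type) (r : ℕ) : Type :=
  List (V × Matrix (Fin r) (Fin r) K[X])

/-- The product of the matrices of a word, where the label `u` stands for the variable `φ u`. -/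
noncomputable def wval (φ : V → ι) (q : ι → K) (w : Word K V r) : Matrix (Fin r) (Fin r) K :=
  (w.map (fun l => l.2.map (Polynomial.eval (q (φ l.1))))).prod

/-- The variable `v` occurs in the word. -/
def Occ (φ : V → ι) (w : Word K V r) (v : ι) : Prop := ∃ l ∈ w, φ l.1 = v

theorem wval_append (φ : V → ι) (q : ι → K) (w w' : Word K V r) :
    wval φ q (w ++ w') = wval φ q w * wval φ q w' := by
  unfold wval
  rw [List.map_append, List.prod_append]

theorem wval_congr {φ : V → ι} {q q' : ι → K} {w : Word K V r}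
    (h : ∀ v, Occ φ w v → q v = q' v) : wval φ q w = wval φ q' w := by
  unfold wval
  congr 1
  refine List.map_congr_left (fun l hl => ?_)
  rw [h _ ⟨l, hl, rfl⟩]

theorem Occ.of_subset {φ : V → ι} {w w' : Word K V r} {v : ι} (h : Occ φ w v)
    (hw : ∀ l ∈ w, l ∈ w') : Occ φ w' v := by
  obtain ⟨l, h1, h2⟩ := h
  exact ⟨l, hw l h1, h2⟩

/-- Along a curve the entries are polynomials. -/
theorem wval_curve (φ : V → ι) (w : Word K V r) (p : ι → K[X]) :
    ∃ M : Matrix (Fin r) (Fin r) K[X], ∀ t : K,
      wval φ (fun i => (p i).eval t) w = M.map (Polynomial.eval t) := by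
  induction w with
  | nil =>
    refine ⟨1, fun t => ?_⟩
    unfold wval
    rw [List.map_nil, List.prod_nil]
    exact (Matrix.map_one _ (by simp) (by simp)).symm
  | cons l w ih =>
    obtain ⟨M, hM⟩ := ih
    refine ⟨l.2.map (fun P => P.comp (p (φ l.1))) * M, fun t => ?_⟩
    have h1 : wval φ (fun i => (p i).eval t) (l :: w) =
        l.2.map (Polynomial.eval ((p (φ l.1)).eval t)) * wval φ (fun i => (p i).eval t) w := by
      unfold wval
      rw [List.map_cons, List.prod_cons]
    rw [h1, hM]
    have h2 := Matrix.map_mul (L := l.2.map (fun P => P.comp (p (φ l.1)))) (M := M)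
      (f := Polynomial.evalRingHom t)
    rw [show (⇑(Polynomial.evalRingHom t) : K[X] → K) = Polynomial.eval t from rfl] at h2
    rw [h2, Matrix.map_map]
    congr 2
    funext P
    simp only [Function.comp_apply, eval_comp]

/-- A minor of the product. -/
noncomputable def mnr (φ : V → ι) {j : ℕ} (e f : Fin j → Fin r) (w : Word K V r) (q : ι → K) : K :=
  ((wval φ q w).submatrix e f).det

theorem mnr_curve (φ : V → ι) {j : ℕ} (e f : Fin j → Fin r) (w : Word K V r) (p : ι → K[X]) :
    ∃ P : K[X], ∀ t : K, mnr φ e f w (fun i => (p i).eval t) = P.eval t := by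
  obtain ⟨M, hM⟩ := wval_curve φ w p
  refine ⟨(M.submatrix e f).det, fun t => ?_⟩
  unfold mnr
  rw [hM]
  have h := RingHom.map_det (Polynomial.evalRingHom t) (M.submatrix e f)
  rw [Polynomial.coe_evalRingHom] at h
  rw [h]
  rfl

theorem mnr_line_finite (φ : V → ι) {j : ℕ} (e f : Fin j → Fin r) (w : Word K V r)
    (a b : ι → K) {t0 : K} (h : mnr φ e f w (fun i => a i + t0 * b i) ≠ 0) :
    {t : K | mnr φ e f w (fun i => a i + t * b i) = 0}.Finite := by
  obtain ⟨P, hP⟩ := mnr_curve φ e f w (fun i => C (a i) + X * C (b i))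
  have hP' : ∀ t : K, mnr φ e f w (fun i => a i + t * b i) = P.eval t := by
    intro t
    rw [← hP]
    congr 1
    funext i
    simp only [eval_add, eval_mul, eval_C, eval_X]
  exact finite_zeros_of_poly P hP' h

/-- The rank can only drop at finitely many points of a line. -/
theorem rank_line_finite (φ : V → ι) (w : Word K V r) (a b : ι → K) (t0 : K) :
    {t : K | (wval φ (fun i => a i + t * b i) w).rank <
      (wval φ (fun i => a i + t0 * b i) w).rank}.Finite := by
  obtain ⟨e, f, h⟩ := exists_minor (wval φ (fun i => a i + t0 * b i) w) rfl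
  refine (mnr_line_finite φ e f w a b (t0 := t0) h).subset (fun t ht => ?_)
  by_contra hne
  have := le_rank_of_minor (A := wval φ (fun i => a i + t * b i) w) (e := e) (f := f) hne
  rw [Set.mem_ofPred_eq] at ht
  omega

/-! ### Segments -/

/-- The letters with indices in `[a, b)`. -/
def seg (w : Word K V r) (a b : ℕ) : Word K V r := (w.drop a).take (b - a)

theorem seg_append {w : Word K V r} {a b c : ℕ} (h1 : a ≤ b) (h2 : b ≤ c) :
    seg w a b ++ seg w b c = seg w a c := by
  unfold seg
  have h3 : w.drop b = (w.drop a).drop (b - a) := by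
    rw [List.drop_drop]
    congr 1
    omega
  rw [h3, show c - a = (b - a) + (c - b) by omega, List.take_add]

theorem take_seg_drop {w : Word K V r} {a b : ℕ} (h1 : a ≤ b) :
    w.take a ++ (seg w a b ++ w.drop b) = w := by
  unfold seg
  have h3 : w.drop b = (w.drop a).drop (b - a) := by
    rw [List.drop_drop]
    congr 1
    omega
  rw [h3, List.take_append_drop, List.take_append_drop]

theorem mem_take_of_mem_seg {w : Word K V r} {a b b' : ℕ} (hb : b ≤ b') (hab : a ≤ b)
    {l : V × Matrix (Fin r) (Fin r) K[X]} (h : l ∈ seg w a b) : l ∈ w.take b' := by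
  have h1 : w.take b = w.take a ++ seg w a b := by
    unfold seg
    conv_lhs => rw [show b = a + (b - a) by omega]
    rw [List.take_add]
  have h2 : l ∈ w.take b := by
    rw [h1]
    exact List.mem_append_right _ h
  exact (List.take_subset_take_left w hb) h2

theorem mem_drop_of_mem_seg {w : Word K V r} {a b a' : ℕ} (ha : a' ≤ a)
    {l : V × Matrix (Fin r) (Fin r) K[X]} (h : l ∈ seg w a b) : l ∈ w.drop a' := by
  have h1 : l ∈ w.drop a := List.mem_of_mem_take h
  have h2 : w.drop a = (w.drop a').drop (a - a') := by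
    rw [List.drop_drop]
    congr 1
    omega
  rw [h2] at h1
  exact List.mem_of_mem_drop h1

theorem seg_infix (w : Word K V r) (a b : ℕ) : seg w a b <:+: w :=
  ((List.take_prefix _ _).isInfix).trans (List.drop_suffix _ _).isInfix

/-! ### Functions with matrix values -/

/-- All entries are represented. -/
def RepM (W : ℕ) (L : List ι) (ρ : ι → K) (F : (ι → K) → Matrix (Fin r) (Fin r) K) : Prop :=
  ∀ i j, Rep W L ρ (fun q => F q i j)

theorem rep_zero (L : List ι) (ρ : ι → K) : Rep 0 L ρ (fun _ => (0 : K)) := by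
  refine ⟨Empty, inferInstance, inferInstance, fun _ _ => 1, fun _ => 0, fun _ => 0, by simp,
    fun _ _ => rfl, fun q _ => ?_⟩
  simp

theorem rep_sum {κ : Type} {W : ℕ} {L : List ι} {ρ : ι → K} (s : Finset κ)
    (f : κ → (ι → K) → K) (h : ∀ l ∈ s, Rep W L ρ (f l)) :
    Rep (s.card * W) L ρ (fun q => ∑ l ∈ s, f l q) := by
  classical
  induction s using Finset.induction_on with
  | empty => simpa using rep_zero L ρ
  | insert a s ha ih =>
    have h1 := (h a (Finset.mem_insert_self _ _)).add
      (ih (fun l hl => h l (Finset.mem_insert_of_mem hl)))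
    rw [Finset.card_insert_of_notMem ha]
    refine (h1.mono (by rw [Nat.add_mul, one_mul, add_comm])).congr (fun q _ => ?_)
    rw [Finset.sum_insert ha]

theorem rep_prod {κ : Type} {W : ℕ} {L : List ι} {ρ : ι → K} (s : Finset κ)
    (f : κ → (ι → K) → K) (h : ∀ l ∈ s, Rep W L ρ (f l)) :
    Rep (W ^ s.card) L ρ (fun q => ∏ l ∈ s, f l q) := by
  classical
  induction s using Finset.induction_on with
  | empty => simpa using Rep.const (L := L) (ρ := ρ) (1 : K)
  | insert a s ha ih =>
    have h1 := (h a (Finset.mem_insert_self _ _)).mul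
      (ih (fun l hl => h l (Finset.mem_insert_of_mem hl)))
    rw [Finset.card_insert_of_notMem ha]
    refine (h1.mono (by rw [pow_succ, mul_comm])).congr (fun q _ => ?_)
    rw [Finset.prod_insert ha]

theorem RepM.mul {W : ℕ} {L : List ι} {ρ : ι → K}
    {F G : (ι → K) → Matrix (Fin r) (Fin r) K} (hF : RepM W L ρ F) (hG : RepM W L ρ G) :
    RepM (r * (W * W)) L ρ (fun q => F q * G q) := by
  intro i j
  have h := rep_sum (W := W * W) (L := L) (ρ := ρ) (Finset.univ : Finset (Fin r))
    (fun l q => F q i l * G q l j) (fun l _ => (hF i l).mul (hG l j))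
  rw [Finset.card_univ, Fintype.card_fin] at h
  refine h.congr (fun q _ => ?_)
  exact Matrix.mul_apply

theorem RepM.mono {W W' : ℕ} {L : List ι} {ρ : ι → K}
    {F : (ι → K) → Matrix (Fin r) (Fin r) K} (hF : RepM W L ρ F) (h : W ≤ W') :
    RepM W' L ρ F := fun i j => (hF i j).mono h

theorem RepM.sublist {W : ℕ} {L L' : List ι} {ρ : ι → K}
    {F : (ι → K) → Matrix (Fin r) (Fin r) K} (hF : RepM W L ρ F) (hL : L.Nodup)
    (h : L'.Sublist L) : RepM W L' ρ F := fun i j => (hF i j).sublist hL h

theorem RepM.reverse {W : ℕ} {L : List ι} {ρ : ι → K}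
    {F : (ι → K) → Matrix (Fin r) (Fin r) K} (hF : RepM W L ρ F) :
    RepM W L.reverse ρ F := fun i j => (hF i j).reverse

theorem RepM.congr {W : ℕ} {L : List ι} {ρ : ι → K}
    {F G : (ι → K) → Matrix (Fin r) (Fin r) K} (hF : RepM W L ρ F)
    (h : ∀ q : ι → K, (∀ i, i ∉ L → q i = ρ i) → G q = F q) : RepM W L ρ G :=
  fun i j => (hF i j).congr (fun q hq => by rw [h q hq])

theorem RepM.of_const {L : List ι} {ρ : ι → K} {F : (ι → K) → Matrix (Fin r) (Fin r) K}
    (h : ∀ q : ι → K, (∀ i, i ∉ L → q i = ρ i) → F q = F ρ) : RepM 1 L ρ F :=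
  fun i j => Rep.of_const (fun q hq => by rw [h q hq])

/-- The determinant of a submatrix of a represented matrix is represented. -/
theorem RepM.minor {W : ℕ} {L : List ι} {ρ : ι → K}
    {F : (ι → K) → Matrix (Fin r) (Fin r) K} (hF : RepM W L ρ F) {j : ℕ} (e f : Fin j → Fin r) :
    Rep (j.factorial * W ^ j) L ρ (fun q => ((F q).submatrix e f).det) := by
  have h := rep_sum (W := W ^ j) (L := L) (ρ := ρ) (Finset.univ : Finset (Equiv.Perm (Fin j)))
    (fun σ q => ((Equiv.Perm.sign σ : ℤ) : K) * ∏ i, F q (e (σ i)) (f i)) (fun σ _ => by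
      have h2 := rep_prod (W := W) (L := L) (ρ := ρ) (Finset.univ : Finset (Fin j))
        (fun i q => F q (e (σ i)) (f i)) (fun i _ => hF _ _)
      rw [Finset.card_univ, Fintype.card_fin] at h2
      exact h2.smul _)
  rw [Finset.card_univ, Fintype.card_perm, Fintype.card_fin] at h
  refine h.congr (fun q _ => ?_)
  rw [Matrix.det_apply']
  rfl

/-! ### Normalisation -/

/-- A product of matrices which are invertible at `ρ` can be normalised. -/
theorem exists_normal {p : ℕ} [DecidableEq ι] (M : ι → K → Matrix (Fin p) (Fin p) K) (ρ : ι → K)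
    (L : List ι) (hL : L.Nodup) (hM : ∀ i ∈ L, IsUnit (M i (ρ i))) :
    ∃ (N : ι → K → Matrix (Fin p) (Fin p) K) (C : Matrix (Fin p) (Fin p) K),
      (∀ i ∈ L, N i (ρ i) = 1) ∧
      ∀ q : ι → K, (L.map (fun i => M i (q i))).prod = (L.map (fun i => N i (q i))).prod * C := by
  induction L with
  | nil => exact ⟨fun _ _ => 1, 1, by simp, fun q => by simp⟩
  | cons a L ih =>
    rw [List.nodup_cons] at hL
    obtain ⟨N, C, h1, h2⟩ := ih hL.2 (fun i hi => hM i (List.mem_cons_of_mem _ hi))
    obtain ⟨U, hU⟩ := hM a List.mem_cons_self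
    refine ⟨update (fun i z => (U : Matrix (Fin p) (Fin p) K) * N i z * (↑U⁻¹ : Matrix _ _ K)) a
      (fun z => M a z * (↑U⁻¹ : Matrix (Fin p) (Fin p) K)), U * C, fun i hi => ?_, fun q => ?_⟩
    · by_cases hia : i = a
      · subst hia
        rw [update_self, ← hU, Units.mul_inv]
      · rw [update_of_ne hia]
        rw [h1 i ((List.mem_cons.1 hi).resolve_left hia), mul_one, Units.mul_inv]
    · have h3 : L.map (fun i => update (fun i z => (U : Matrix (Fin p) (Fin p) K) * N i z *
          (↑U⁻¹ : Matrix _ _ K)) a (fun z => M a z * (↑U⁻¹ : Matrix (Fin p) (Fin p) K)) i (q i)) =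
          L.map (fun i => (U : Matrix (Fin p) (Fin p) K) * N i (q i) * (↑U⁻¹ : Matrix _ _ K)) := by
        refine List.map_congr_left (fun i hi => ?_)
        rw [update_of_ne]
        rintro rfl
        exact hL.1 hi
      rw [List.map_cons, List.prod_cons, List.map_cons, List.prod_cons, h3, update_self, h2]
      have h4 : ∀ l : List ι, (l.map (fun i => (U : Matrix (Fin p) (Fin p) K) * N i (q i) *
          (↑U⁻¹ : Matrix _ _ K))).prod =
          (U : Matrix (Fin p) (Fin p) K) * (l.map (fun i => N i (q i))).prod * (↑U⁻¹ : Matrix _ _ K) := by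
        intro l
        induction l with
        | nil => simp
        | cons b l ihl =>
          rw [List.map_cons, List.prod_cons, ihl, List.map_cons, List.prod_cons]
          simp only [mul_assoc]
          rw [← mul_assoc (↑U⁻¹ : Matrix (Fin p) (Fin p) K) (U : Matrix (Fin p) (Fin p) K),
            Units.inv_mul, one_mul]
      rw [h4]
      simp only [mul_assoc]
      rw [← mul_assoc (↑U⁻¹ : Matrix (Fin p) (Fin p) K) (U : Matrix (Fin p) (Fin p) K) (_ * _),
        Units.inv_mul, one_mul, ← mul_assoc (↑U⁻¹ : Matrix (Fin p) (Fin p) K)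
        (U : Matrix (Fin p) (Fin p) K), Units.inv_mul, one_mul]

end Pool.Agent.RW
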