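import Mathlib
import Pool.Agent.Work.RW.Word

/-!
# Chains of blocks of constant rank
-/

set_option autoImplicit false

namespace Pool.Agent.RW

open Function Polynomial Matrix Pool.Agent.RK

variable {K : Type} [Field K] {ι V : Type} {r : ℕ} [DecidableEq ι]

theorem telescope {p : ℕ} (t : ℕ) (S : ℕ → Matrix (Fin r) (Fin r) K)
    (X : ℕ → Matrix (Fin r) (Fin p) K) (Y : ℕ → Matrix (Fin p) (Fin r) K)
    (O : ℕ → Matrix (Fin r) (Fin r) K)
    (hS0 : S 0 = X 0 * Y 0)
    (hS : ∀ i < t, S (i + 1) = S i * (O i * (X (i + 1) * Y (i + 1)))) :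
    ∀ i ≤ t, S i = X 0 * ((List.range i).map (fun i => Y i * O i * X (i + 1))).prod * Y i := by
  intro i
  induction i with
  | zero => intro _; simp [hS0]
  | succ i ih =>
    intro hi
    rw [hS i (by omega), ih (by omega), List.range_succ, List.map_append, List.prod_append]
    simp only [List.map_cons, List.map_nil, List.prod_cons, List.prod_nil, mul_one,
      Matrix.mul_assoc]

omit [DecidableEq ι] in
theorem rank_seg_le {φ : V → ι} {ρ : ι → K} {w : Word K V r} {a a' b' b : ℕ} (h1 : a ≤ a')
    (h2 : a' ≤ b') (h3 : b' ≤ b) :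
    (wval φ ρ (seg w a b)).rank ≤ (wval φ ρ (seg w a' b')).rank := by
  rw [← seg_append (h1.trans h2) h3, ← seg_append h1 h2, wval_append, wval_append]
  exact (rank_mul_le_left _ _).trans (rank_mul_le_right _ _)

/-- **Chains of blocks.** -/
theorem chain_rep {φ : V → ι} {w : Word K V r} (t : ℕ) (x : ℕ → ℕ) (hx : Monotone x)
    (y : ℕ → ι) (hy1 : ∀ j < t, ¬ Occ φ (w.take (x (2 * j + 1))) (y j))
    (hy2 : ∀ j < t, ¬ Occ φ (w.drop (x (2 * j + 2))) (y j))
    (hnd : ((List.range t).map y).Nodup) (ρ : ι → K) (p : ℕ)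
    (hrank : ∀ j < 2 * t + 1, (wval φ ρ (seg w (x j) (x (j + 1)))).rank = p)
    (htot : p ≤ (wval φ ρ (seg w (x 0) (x (2 * t + 1)))).rank) :
    RepM r ((List.range t).map y) ρ (fun q => wval φ q w) := by
  -- factorisations
  have hfac : ∀ i, ∃ (X : Matrix (Fin r) (Fin p) K) (Y : Matrix (Fin p) (Fin r) K), i ≤ t →
      wval φ ρ (seg w (x (2 * i)) (x (2 * i + 1))) = X * Y := by
    intro i
    by_cases hi : i ≤ t
    · obtain ⟨X, Y, h⟩ := rank_factor _ (hrank (2 * i) (by omega))
      exact ⟨X, Y, fun _ => h⟩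
    · exact ⟨0, 0, fun h => absurd h hi⟩
  choose X Y hXY using hfac
  -- the matrices
  set L : List ι := (List.range t).map y with hL
  have hidx : ∀ j < t, L.idxOf (y j) = j := by
    intro j hj
    have hlen : j < L.length := by simp [hL, hj]
    have h1 : L[j] = y j := by simp [hL]
    rw [← h1]
    exact List.Nodup.idxOf_getElem hnd j hlen
  set M : ι → K → Matrix (Fin p) (Fin p) K := fun v z =>
    Y (L.idxOf v) * wval φ (update ρ v z) (seg w (x (2 * L.idxOf v + 1)) (x (2 * L.idxOf v + 2))) *
      X (L.idxOf v + 1) with hM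
  have hmemL : ∀ {v}, v ∈ L → ∃ j < t, y j = v := by
    intro v hv
    rw [hL, List.mem_map] at hv
    obtain ⟨j, hj, rfl⟩ := hv
    exact ⟨j, List.mem_range.1 hj, rfl⟩
  have hunit : ∀ v ∈ L, IsUnit (M v (ρ v)) := by
    intro v hv
    obtain ⟨j, hj, rfl⟩ := hmemL hv
    rw [hM]
    dsimp only
    rw [hidx j hj, update_eq_self]
    refine isUnit_of_rank_mul (X := X j) (Y := Y (j + 1)) ?_
    have h1 : X j * (Y j * wval φ ρ (seg w (x (2 * j + 1)) (x (2 * j + 2))) * X (j + 1)) *
        Y (j + 1) = wval φ ρ (seg w (x (2 * j)) (x (2 * (j + 1) + 1))) := by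
      rw [← seg_append (hx (show 2 * j ≤ 2 * j + 1 by omega))
        (hx (show 2 * j + 1 ≤ 2 * (j + 1) + 1 by omega)),
        ← seg_append (hx (show 2 * j + 1 ≤ 2 * j + 2 by omega))
        (hx (show 2 * j + 2 ≤ 2 * (j + 1) + 1 by omega)), wval_append, wval_append,
        hXY j (by omega), show 2 * j + 2 = 2 * (j + 1) by ring, hXY (j + 1) (by omega)]
      simp only [Matrix.mul_assoc]
    rw [h1]
    exact htot.trans (rank_seg_le (hx (Nat.zero_le _)) (hx (by omega)) (hx (by omega)))
  obtain ⟨N, C, hN1, hN2⟩ := exists_normal M ρ L hnd hunit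
  -- the product
  have hprod : ∀ q : ι → K, (∀ i, i ∉ L → q i = ρ i) → wval φ q w =
      (wval φ ρ (w.take (x 0)) * X 0) * (L.map (fun i => M i (q i))).prod *
        (Y t * wval φ ρ (w.drop (x (2 * t + 1)))) := by
    intro q hq
    have hfix : ∀ (u : Word K V r), (∀ j < t, ¬ Occ φ u (y j)) → wval φ q u = wval φ ρ u := by
      intro u hu
      refine wval_congr (fun v hv => hq v (fun hvL => ?_))
      obtain ⟨j, hj, rfl⟩ := hmemL hvL
      exact hu j hj hv
    have hpre : wval φ q (w.take (x 0)) = wval φ ρ (w.take (x 0)) := hfix _ (fun j hj h =>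
      hy1 j hj (h.of_subset (fun l hl => List.take_subset_take_left w (hx (Nat.zero_le _)) hl)))
    have hpost : wval φ q (w.drop (x (2 * t + 1))) = wval φ ρ (w.drop (x (2 * t + 1))) :=
      hfix _ (fun j hj h => hy2 j hj (h.of_subset (fun l hl => by
        have h5 : x (2 * j + 2) ≤ x (2 * t + 1) := hx (by omega)
        have h6 : w.drop (x (2 * t + 1)) =
            (w.drop (x (2 * j + 2))).drop (x (2 * t + 1) - x (2 * j + 2)) := by
          rw [List.drop_drop]
          congr 1
          omega
        rw [h6] at hl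
        exact List.mem_of_mem_drop hl)))
    have heven : ∀ i ≤ t, wval φ q (seg w (x (2 * i)) (x (2 * i + 1))) = X i * Y i := by
      intro i hi
      rw [← hXY i hi]
      refine hfix _ (fun j hj h => ?_)
      rcases Nat.lt_or_ge j i with hji | hji
      · exact hy2 j hj (h.of_subset (fun l hl =>
          mem_drop_of_mem_seg (hx (show 2 * j + 2 ≤ 2 * i by omega)) hl))
      · exact hy1 j hj (h.of_subset (fun l hl =>
          mem_take_of_mem_seg (hx (show 2 * i + 1 ≤ 2 * j + 1 by omega))
            (hx (show 2 * i ≤ 2 * i + 1 by omega)) hl))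
    have hodd : ∀ i < t, wval φ q (seg w (x (2 * i + 1)) (x (2 * i + 2))) =
        wval φ (update ρ (y i) (q (y i))) (seg w (x (2 * i + 1)) (x (2 * i + 2))) := by
      intro i hi
      refine wval_congr (fun v hv => ?_)
      by_cases hvi : v = y i
      · subst hvi; rw [update_self]
      · rw [update_of_ne hvi]
        refine hq v (fun hvL => ?_)
        obtain ⟨j, hj, rfl⟩ := hmemL hvL
        have hji : j ≠ i := fun e => hvi (by rw [e])
        rcases Nat.lt_or_gt_of_ne hji with hlt | hgt
        · exact hy2 j hj (hv.of_subset (fun l hl =>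
            mem_drop_of_mem_seg (hx (show 2 * j + 2 ≤ 2 * i + 1 by omega)) hl))
        · exact hy1 j hj (hv.of_subset (fun l hl =>
            mem_take_of_mem_seg (hx (show 2 * i + 2 ≤ 2 * j + 1 by omega))
              (hx (show 2 * i + 1 ≤ 2 * i + 2 by omega)) hl))
    have htel := telescope t (fun i => wval φ q (seg w (x 0) (x (2 * i + 1)))) X Y
      (fun i => wval φ q (seg w (x (2 * i + 1)) (x (2 * i + 2)))) (heven 0 (Nat.zero_le _))
      (fun i hi => by
        rw [← heven (i + 1) (by omega), ← wval_append, ← wval_append,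
          show 2 * (i + 1) = 2 * i + 2 by ring,
          seg_append (hx (show 2 * i + 1 ≤ 2 * i + 2 by omega))
            (hx (show 2 * i + 2 ≤ 2 * i + 2 + 1 by omega)),
          seg_append (hx (Nat.zero_le _)) (hx (show 2 * i + 1 ≤ 2 * i + 2 + 1 by omega))])
      t (le_refl _)
    have hlist : L.map (fun i => M i (q i)) = (List.range t).map (fun i =>
        Y i * wval φ q (seg w (x (2 * i + 1)) (x (2 * i + 2))) * X (i + 1)) := by
      rw [hL, List.map_map]
      refine List.map_congr_left (fun j hj => ?_)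
      rw [List.mem_range] at hj
      simp only [Function.comp_apply, hM]
      rw [hidx j hj, hodd j hj]
    conv_lhs => rw [← take_seg_drop (w := w) (hx (Nat.zero_le (2 * t + 1)))]
    rw [wval_append, wval_append, hpre, hpost, hlist]
    rw [htel]
    simp only [Matrix.mul_assoc]
  -- the representation
  intro i j
  refine ⟨Fin p, inferInstance, inferInstance, N, (wval φ ρ (w.take (x 0)) * X 0).row i,
    (C * (Y t * wval φ ρ (w.drop (x (2 * t + 1))))).col j, ?_, hN1, fun q hq => ?_⟩
  · rw [Fintype.card_fin, ← hrank 0 (by omega)]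
    exact rank_le_width _
  · dsimp only
    rw [hprod q hq, hN2]
    set A := wval φ ρ (w.take (x 0)) * X 0
    set B := Y t * wval φ ρ (w.drop (x (2 * t + 1)))
    set P := (L.map (fun i => N i (q i))).prod
    have h1 : A * (P * C) * B = A * (P * (C * B)) := by simp only [Matrix.mul_assoc]
    rw [h1, Matrix.mul_apply]
    rfl

/-! ### Combinatorial lemmas -/

/-- Consecutive groups of blocks of constant rank. -/
theorem exists_const_rank {T : ℕ} (hT : 1 ≤ T) (r : ℕ) (R : ℕ → ℕ → ℕ)
    (hR : ∀ a a' b' b, a ≤ a' → a' ≤ b' → b' ≤ b → R a b ≤ R a' b') (hr : ∀ a b, R a b ≤ r) :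
    ∃ a d, 0 < d ∧ a + T * d ≤ T ^ (r + 1) ∧
      ∀ j < T, R (a + j * d) (a + (j + 1) * d) = R a (a + T * d) := by
  by_contra hcon
  push Not at hcon
  have key : ∀ t, t ≤ r + 1 → ∀ a, a + T ^ t ≤ T ^ (r + 1) → R a (a + T ^ t) + t ≤ r := by
    intro t
    induction t with
    | zero => intro _ a _; have := hr a (a + T ^ 0); omega
    | succ t ih =>
      intro ht a ha
      have hpos : 0 < T ^ t := Nat.pow_pos (by omega)
      have e1 : T ^ (t + 1) = T * T ^ t := by rw [pow_succ, mul_comm]
      obtain ⟨j, hj, hne⟩ := hcon a (T ^ t) hpos (by rw [← e1]; exact ha)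
      have e2 : (j + 1) * T ^ t ≤ T * T ^ t := Nat.mul_le_mul_right _ hj
      have e3 : (j + 1) * T ^ t = j * T ^ t + T ^ t := by ring
      have h1 := ih (by omega) (a + j * T ^ t) (by omega)
      have h2 := hR a (a + j * T ^ t) (a + (j + 1) * T ^ t) (a + T * T ^ t) (by omega) (by omega)
        (by omega)
      have h3 : a + j * T ^ t + T ^ t = a + (j + 1) * T ^ t := by omega
      rw [h3] at h1
      rw [e1]
      omega
  have := key (r + 1) (le_refl _) 0 (by omega)
  omega

end Pool.Agent.RW
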