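import Mathlib
import Pool.Agent.Work.RW.Chain

/-!
# The regularisation theorem for words
-/

set_option autoImplicit false

namespace Pool.Agent.RW

open Function Polynomial Matrix Pool.Agent.RK

variable {K : Type} [Field K] {ι V : Type} {r : ℕ}

/-- The labels over `v` which occur in the word. -/
def fib (φ : V → ι) (w : Word K V r) (v : ι) : Set V := {u | φ u = v ∧ ∃ l ∈ w, l.1 = u}

/-- At every cut at most `c` labels occur on both sides. -/
def Thin (c : ℕ) (w : Word K V r) : Prop :=
  ∀ w1 w2, w = w1 ++ w2 →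
    Set.encard {u : V | (∃ l ∈ w1, l.1 = u) ∧ ∃ l ∈ w2, l.1 = u} ≤ c

theorem Thin.ofInfix {c : ℕ} {w w' : Word K V r} (h : Thin c w) (hw : w' <:+: w) : Thin c w' := by
  obtain ⟨s, t, hst⟩ := hw
  intro w1 w2 h12
  refine (Set.encard_le_encard ?_).trans (h (s ++ w1) (w2 ++ t) (by rw [← hst, h12]; simp))
  rintro u ⟨⟨l, h1, h2⟩, ⟨l', h3, h4⟩⟩
  exact ⟨⟨l, List.mem_append_right _ h1, h2⟩, ⟨l', List.mem_append_left _ h3, h4⟩⟩

theorem fib_mono {φ : V → ι} {w w' : Word K V r} (h : ∀ l ∈ w', l ∈ w) (v : ι) :
    fib φ w' v ⊆ fib φ w v := by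
  rintro u ⟨h1, l, h2, h3⟩
  exact ⟨h1, l, h l h2, h3⟩

theorem occ_iff_fib {φ : V → ι} {w : Word K V r} {v : ι} : Occ φ w v ↔ (fib φ w v).Nonempty := by
  constructor
  · rintro ⟨l, h1, h2⟩
    exact ⟨l.1, h2, l, h1, rfl⟩
  · rintro ⟨u, h1, l, h2, h3⟩
    exact ⟨l, h2, by rw [h3, h1]⟩

theorem occ_append {φ : V → ι} {w w' : Word K V r} {v : ι} :
    Occ φ (w ++ w') v ↔ Occ φ w v ∨ Occ φ w' v := by
  unfold Occ
  constructor
  · rintro ⟨l, h1, h2⟩
    rcases List.mem_append.1 h1 with h1 | h1
    · exact Or.inl ⟨l, h1, h2⟩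
    · exact Or.inr ⟨l, h1, h2⟩
  · rintro (⟨l, h1, h2⟩ | ⟨l, h1, h2⟩)
    · exact ⟨l, List.mem_append_left _ h1, h2⟩
    · exact ⟨l, List.mem_append_right _ h1, h2⟩

theorem encard_le_of_insert' {X : Type} {k : ℕ} {S P : Set X} {x : X} (hx : x ∉ S)
    (hxP : x ∈ P) (hSP : S ⊆ P) (hP : P.encard ≤ (k + 1 : ℕ)) : S.encard ≤ k := by
  have h1 : (insert x S).encard ≤ (k + 1 : ℕ) :=
    (Set.encard_le_encard (Set.insert_subset hxP hSP)).trans hP
  rw [Set.encard_insert_of_notMem hx] at h1
  push_cast at h1
  exact (ENat.add_le_add_iff_right ENat.one_ne_top).1 h1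

open scoped Classical in
/-- Disjoint blocks containing all occurrences of some variables. -/
theorem exists_blocks [Nonempty ι] {φ : V → ι} {w : Word K V r} {S : Finset ι} {M : ℕ}
    (hS : ∀ v ∈ S, Occ φ w v)
    (hM : ∀ n, (S.filter (fun v => Occ φ (w.take n) v ∧ Occ φ (w.drop n) v)).card ≤ M) (ℓ : ℕ) :
    ∀ p, (M + 1) * ℓ ≤ (S.filter (fun v => ¬ Occ φ (w.take p) v)).card →
      ∃ (x : ℕ → ℕ) (y : ℕ → ι), x 0 = p ∧ Monotone x ∧
        ∀ i < ℓ, y i ∈ S ∧ ¬ Occ φ (w.take (x i)) (y i) ∧ ¬ Occ φ (w.drop (x (i + 1))) (y i) := by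
  induction ℓ with
  | zero =>
    intro p _
    exact ⟨fun _ => p, fun _ => Classical.arbitrary ι, rfl, monotone_const,
      fun i hi => absurd hi (Nat.not_lt_zero i)⟩
  | succ ℓ ih =>
    intro p hp
    have hex : ∃ n, p ≤ n ∧ ∃ v ∈ S, ¬ Occ φ (w.take p) v ∧ ¬ Occ φ (w.drop n) v := by
      have hpos : 0 < (S.filter (fun v => ¬ Occ φ (w.take p) v)).card := by
        refine lt_of_lt_of_le ?_ hp
        exact Nat.mul_pos (Nat.succ_pos _) (Nat.succ_pos _)
      obtain ⟨v, hv⟩ := Finset.card_pos.1 hpos
      rw [Finset.mem_filter] at hv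
      refine ⟨p + w.length, by omega, v, hv.1, hv.2, ?_⟩
      rintro ⟨l, hl, _⟩
      rw [List.drop_of_length_le (by omega)] at hl
      simp at hl
    set n := Nat.find hex with hn
    obtain ⟨h1, v, h2, h3, h4⟩ := Nat.find_spec hex
    rw [← hn] at h1 h4
    have hmin : ∀ m, m < n → p ≤ m → ∀ u ∈ S, ¬ Occ φ (w.take p) u → Occ φ (w.drop m) u := by
      intro m hm hpm u hu1 hu2
      by_contra hu3
      exact Nat.find_min hex hm ⟨hpm, u, hu1, hu2, hu3⟩
    have hpn : p < n := by
      rcases Nat.lt_or_ge p n with h | h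
      · exact h
      · exfalso
        have : n = p := le_antisymm h h1
        rw [this] at h4
        have h5 := hS v h2
        rw [← List.take_append_drop p w, occ_append] at h5
        exact h5.elim h3 h4
    -- the letter before the cut
    have hlet : ∀ u ∈ S, ¬ Occ φ (w.take p) u → ¬ Occ φ (w.drop n) u →
        ∃ l, w[n - 1]? = some l ∧ φ l.1 = u := by
      intro u hu1 hu2 hu3
      obtain ⟨l, hl, hlu⟩ := hmin (n - 1) (by omega) (by omega) u hu1 hu2
      have hlen : n - 1 < w.length := by
        by_contra hlen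
        rw [List.drop_of_length_le (by omega)] at hl
        simp at hl
      rw [List.drop_eq_getElem_cons hlen, List.mem_cons, show n - 1 + 1 = n by omega] at hl
      rcases hl with rfl | hl
      · exact ⟨w[n - 1], List.getElem?_eq_getElem hlen, hlu⟩
      · exact absurd ⟨l, hl, hlu⟩ hu3
    have hsub : S.filter (fun v => ¬ Occ φ (w.take p) v) ⊆
        S.filter (fun v => ¬ Occ φ (w.take n) v) ∪
          (insert v (S.filter (fun v => Occ φ (w.take n) v ∧ Occ φ (w.drop n) v))) := by
      intro u hu
      rw [Finset.mem_filter] at hu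
      rw [Finset.mem_union, Finset.mem_insert, Finset.mem_filter, Finset.mem_filter]
      by_cases hu1 : Occ φ (w.take n) u
      · right
        by_cases hu2 : Occ φ (w.drop n) u
        · right; exact ⟨hu.1, hu1, hu2⟩
        · left
          obtain ⟨l, e1, e2⟩ := hlet u hu.1 hu.2 hu2
          obtain ⟨l', e3, e4⟩ := hlet v h2 h3 h4
          rw [e1, Option.some.injEq] at e3
          rw [← e2, ← e4, e3]
      · left; exact ⟨hu.1, hu1⟩
    have hcard : (M + 1) * ℓ ≤ (S.filter (fun v => ¬ Occ φ (w.take n) v)).card := by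
      have e1 := Finset.card_le_card hsub
      have e2 := Finset.card_union_le (S.filter (fun v => ¬ Occ φ (w.take n) v))
        (insert v (S.filter (fun v => Occ φ (w.take n) v ∧ Occ φ (w.drop n) v)))
      have e3 := Finset.card_insert_le v
        (S.filter (fun v => Occ φ (w.take n) v ∧ Occ φ (w.drop n) v))
      have e4 := hM n
      have e5 : (M + 1) * (ℓ + 1) = (M + 1) * ℓ + (M + 1) := by ring
      omega
    obtain ⟨x, y, k1, k2, k3⟩ := ih n hcard
    refine ⟨fun i => if i = 0 then p else x (i - 1), fun i => if i = 0 then v else y (i - 1),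
      by simp, monotone_nat_of_le_succ (fun i => ?_), fun i hi => ?_⟩
    · by_cases hi : i = 0
      · subst hi; simp [k1, h1]
      · simp only [hi, if_false, Nat.add_eq_zero_iff, one_ne_zero, and_false]
        exact k2 (by omega)
    · by_cases hi0 : i = 0
      · subst hi0
        simp only [if_true, zero_add, one_ne_zero, if_false, Nat.sub_self]
        rw [k1]
        exact ⟨h2, h3, h4⟩
      · simp only [hi0, if_false, Nat.add_eq_zero_iff, one_ne_zero, and_false]
        have := k3 (i - 1) (by omega)
        rw [show i - 1 + 1 = i by omega] at this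
        rw [show i + 1 - 1 = i by omega]
        exact this

/-- The size of the matrices. -/
def wW (r : ℕ) : ℕ → ℕ
  | 0 => 1
  | k + 1 => r * (wW r k * wW r k) + r + 1

/-- The number of variables. -/
def wN (r c : ℕ) : ℕ → ℕ → ℕ
  | 0, s => s
  | k + 1, s => s + (wN r c k (wN r c k s) + c + 1) * (2 * 2 ^ (s + s) + 1) ^ (r + 1)

open scoped Classical in
/-- **Regularisation** of words. -/
theorem reg_word [Nonempty ι] (c k : ℕ) : ∀ (s : ℕ) (φ : V → ι) (w : Word K V r) (L0 : List ι)
    (ρ0 : ι → K), L0.Nodup → wN r c k s ≤ L0.length → (∀ v ∈ L0, (fib φ w v).encard ≤ k) →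
    Thin c w → ∃ L : List ι, L.Sublist L0 ∧ L.length = s ∧
      ∀ ρ : ι → K, (∀ y, y <:+: w → (wval φ ρ y).rank = (wval φ ρ0 y).rank) →
        RepM (wW r k) L ρ (fun q => wval φ q w) := by
  induction k with
  | zero =>
    intro s φ w L0 ρ0 hnd hlen hfib _
    refine ⟨L0.take s, List.take_sublist _ _, by
      rw [List.length_take]
      exact min_eq_left hlen, fun ρ _ => ?_⟩
    refine RepM.of_const (fun q hq => wval_congr (fun v hv => hq v (fun hvL => ?_)))
    have h1 := hfib v (List.mem_of_mem_take hvL)
    have h2 : fib φ w v = ∅ := by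
      rw [← Set.encard_eq_zero]
      exact le_antisymm h1 bot_le
    rw [occ_iff_fib, h2] at hv
    exact Set.not_nonempty_empty hv
  | succ k ih =>
    intro s φ w L0 ρ0 hnd hlen hfib hthin
    rw [wN] at hlen
    set M := wN r c k (wN r c k s) + c with hM
    have hW1 : 1 ≤ wW r (k + 1) := by rw [wW]; omega
    have hWr : r ≤ wW r (k + 1) := by rw [wW]; omega
    by_cases hz : s ≤ (L0.filter (fun v => decide (¬ Occ φ w v))).length
    · refine ⟨(L0.filter (fun v => decide (¬ Occ φ w v))).take s,
        (List.take_sublist _ _).trans List.filter_sublist, by rw [List.length_take]; omega,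
        fun ρ _ => ?_⟩
      refine RepM.mono (W := 1) (RepM.of_const (fun q hq => wval_congr (fun v hv => hq v
        (fun hvL => ?_)))) hW1
      have := (List.mem_filter.1 (List.mem_of_mem_take hvL)).2
      exact (of_decide_eq_true this) hv
    push Not at hz
    set L1 := L0.filter (fun v => !decide (¬ Occ φ w v)) with hL1
    have hsub1 : L1.Sublist L0 := List.filter_sublist
    have hnd1 := hsub1.nodup hnd
    have hlen1 : (M + 1) * (2 * 2 ^ (s + s) + 1) ^ (r + 1) ≤ L1.length := by
      have h1 := List.length_eq_length_filter_add (l := L0) (fun v => decide (¬ Occ φ w v))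
      change L0.length = _ + L1.length at h1
      omega
    have hocc1 : ∀ v ∈ L1, Occ φ w v := by
      intro v hv
      have := (List.mem_filter.1 hv).2
      simpa using this
    by_cases hcross : ∃ n, M < (L1.toFinset.filter
        (fun v => Occ φ (w.take n) v ∧ Occ φ (w.drop n) v)).card
    · -- a cut with many crossing variables
      obtain ⟨n, hn⟩ := hcross
      set w1 := w.take n with hw1
      set w2 := w.drop n with hw2
      have hw : w = w1 ++ w2 := (List.take_append_drop n w).symm
      have hin1 : w1 <:+: w := (List.take_prefix _ _).isInfix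
      have hin2 : w2 <:+: w := (List.drop_suffix _ _).isInfix
      have hX := hthin w1 w2 hw
      have hXf : ({u : V | (∃ l ∈ w1, l.1 = u) ∧ ∃ l ∈ w2, l.1 = u}).Finite :=
        Set.finite_of_encard_le_coe hX
      set X : Finset ι := hXf.toFinset.image φ with hXdef
      have hXc : X.card ≤ c := by
        have e2 : X.card ≤ hXf.toFinset.card := Finset.card_image_le
        rw [hXf.encard_eq_coe_toFinset_card] at hX
        have e1 : hXf.toFinset.card ≤ c := by exact_mod_cast hX
        omega
      set L2 := L1.filter (fun v => decide (Occ φ w1 v ∧ Occ φ w2 v)) with hL2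
      set L3 := L2.filter (fun v => !decide (v ∈ X)) with hL3
      have hsub2 : L2.Sublist L1 := List.filter_sublist
      have hsub3 : L3.Sublist L2 := List.filter_sublist
      have hlen3 : wN r c k (wN r c k s) ≤ L3.length := by
        have h5 : L1.toFinset.filter (fun v => Occ φ w1 v ∧ Occ φ w2 v) = L2.toFinset := by
          ext i
          simp [hL2]
        rw [h5, List.toFinset_card_of_nodup (hsub2.nodup hnd1)] at hn
        have h6 := List.length_eq_length_filter_add (l := L2) (fun i => decide (i ∈ X))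
        change L2.length = _ + L3.length at h6
        have h7 : (L2.filter (fun i => decide (i ∈ X))).length ≤ X.card := by
          rw [← List.toFinset_card_of_nodup ((hsub2.nodup hnd1).filter _)]
          refine Finset.card_le_card (fun i hi => ?_)
          rw [List.mem_toFinset, List.mem_filter] at hi
          simpa using hi.2
        omega
      have hfib3 : ∀ v ∈ L3, (fib φ w1 v).encard ≤ k ∧ (fib φ w2 v).encard ≤ k := by
        intro v hv
        have hvX : v ∉ X := by
          have := (List.mem_filter.1 hv).2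
          simpa using this
        have hv2 : Occ φ w1 v ∧ Occ φ w2 v := by
          have := (List.mem_filter.1 (hsub3.subset hv)).2
          exact of_decide_eq_true this
        have hv0 := hfib v (hsub1.subset (hsub2.subset (hsub3.subset hv)))
        have hdis : ∀ u, u ∈ fib φ w1 v → u ∉ fib φ w2 v := by
          rintro u ⟨a1, a2⟩ ⟨_, a3⟩
          apply hvX
          rw [hXdef, Finset.mem_image]
          exact ⟨u, hXf.mem_toFinset.2 ⟨a2, a3⟩, a1⟩
        obtain ⟨u1, hu1⟩ := occ_iff_fib.1 hv2.1
        obtain ⟨u2, hu2⟩ := occ_iff_fib.1 hv2.2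
        have s1 : fib φ w1 v ⊆ fib φ w v := fib_mono (fun l hl => hin1.subset hl) v
        have s2 : fib φ w2 v ⊆ fib φ w v := fib_mono (fun l hl => hin2.subset hl) v
        exact ⟨encard_le_of_insert' (fun h => hdis _ h hu2) (s2 hu2) s1 hv0,
          encard_le_of_insert' (fun h => hdis _ hu1 h) (s1 hu1) s2 hv0⟩
      have hnd3 := hsub3.nodup (hsub2.nodup hnd1)
      obtain ⟨L4, a1, a2, a3⟩ := ih (wN r c k s) φ w1 L3 ρ0 hnd3 hlen3
        (fun v hv => (hfib3 v hv).1) (hthin.ofInfix hin1)
      obtain ⟨L5, b1, b2, b3⟩ := ih s φ w2 L4 ρ0 (a1.nodup hnd3) a2.ge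
        (fun v hv => (hfib3 v (a1.subset hv)).2) (hthin.ofInfix hin2)
      refine ⟨L5, (((b1.trans a1).trans hsub3).trans hsub2).trans hsub1, b2, fun ρ hρ => ?_⟩
      have r1 := (a3 ρ (fun y hy => hρ y (hy.trans hin1))).sublist (a1.nodup hnd3) b1
      have r2 := b3 ρ (fun y hy => hρ y (hy.trans hin2))
      refine ((r1.mul r2).mono (by rw [wW]; omega)).congr (fun q _ => ?_)
      conv_lhs => rw [hw]
      rw [wval_append]
    · -- all cuts have few crossing variables
      push Not at hcross
      set t := 2 ^ (s + s) with ht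
      obtain ⟨x, y, hx0, hx, hxy⟩ := exists_blocks (φ := φ) (w := w) (S := L1.toFinset) (M := M)
        (fun v hv => hocc1 v (List.mem_toFinset.1 hv)) hcross ((2 * t + 1) ^ (r + 1)) 0 (by
          have h1 : L1.toFinset.filter (fun v => ¬ Occ φ (w.take 0) v) = L1.toFinset := by
            refine Finset.filter_true_of_mem (fun v _ => ?_)
            rintro ⟨l, hl, _⟩
            simp at hl
          rw [h1, List.toFinset_card_of_nodup hnd1]
          exact hlen1)
      obtain ⟨a, d, hd, had, hconst⟩ := exists_const_rank (T := 2 * t + 1) (by omega) r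
        (fun a b => (wval φ ρ0 (seg w (x a) (x b))).rank)
        (fun a a' b' b h1 h2 h3 => rank_seg_le (hx h1) (hx h2) (hx h3))
        (fun a b => rank_le_width _)
      have hle : ∀ j, j < 2 * t + 1 → a + j * d < (2 * t + 1) ^ (r + 1) := by
        intro j hj
        have : j * d < (2 * t + 1) * d := Nat.mul_lt_mul_of_pos_right hj hd
        omega
      have hmono : Monotone (fun j => x (a + j * d)) := by
        intro i j hij
        exact hx (Nat.add_le_add_left (Nat.mul_le_mul_right _ hij) _)
      set y' : ℕ → ι := fun j => y (a + (2 * j + 1) * d) with hy'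
      have hy1 : ∀ j < t, y' j ∈ L1 ∧ ¬ Occ φ (w.take (x (a + (2 * j + 1) * d))) (y' j) ∧
          ¬ Occ φ (w.drop (x (a + (2 * j + 2) * d))) (y' j) := by
        intro j hj
        obtain ⟨e1, e2, e3⟩ := hxy (a + (2 * j + 1) * d) (hle _ (by omega))
        refine ⟨List.mem_toFinset.1 e1, e2, fun h => e3 (h.of_subset (fun l hl => ?_))⟩
        have h5 : x (a + (2 * j + 1) * d + 1) ≤ x (a + (2 * j + 2) * d) := hx (by
          have : (2 * j + 2) * d = (2 * j + 1) * d + d := by ring
          omega)
        have h6 : w.drop (x (a + (2 * j + 2) * d)) = (w.drop (x (a + (2 * j + 1) * d + 1))).drop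
            (x (a + (2 * j + 2) * d) - x (a + (2 * j + 1) * d + 1)) := by
          rw [List.drop_drop]
          congr 1
          omega
        rw [h6] at hl
        exact List.mem_of_mem_drop hl
      have hlt : ∀ i j, i < j → j < t → y' i ≠ y' j := by
        intro i j hij hj heq
        have h1 := (hy1 i (by omega)).2.2
        have h2 := hocc1 _ (hy1 j hj).1
        rw [← List.take_append_drop (x (a + (2 * j + 1) * d)) w, occ_append] at h2
        rcases h2 with h2 | h2
        · exact (hy1 j hj).2.1 h2
        · rw [heq] at h1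
          refine h1 (h2.of_subset (fun l hl => ?_))
          have h5 : x (a + (2 * i + 2) * d) ≤ x (a + (2 * j + 1) * d) := hmono (by omega)
          have h6 : w.drop (x (a + (2 * j + 1) * d)) = (w.drop (x (a + (2 * i + 2) * d))).drop
              (x (a + (2 * j + 1) * d) - x (a + (2 * i + 2) * d)) := by
            rw [List.drop_drop]
            congr 1
            omega
          rw [h6] at hl
          exact List.mem_of_mem_drop hl
      have hndy : ((List.range t).map y').Nodup := by
        refine (List.nodup_map_iff_inj_on List.nodup_range).2 (fun i hi j hj hij => ?_)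
        rw [List.mem_range] at hi hj
        rcases Nat.lt_trichotomy i j with h | h | h
        · exact absurd hij (hlt i j h hj)
        · exact h
        · exact absurd hij.symm (hlt j i h hi)
      set Ly := (List.range t).map y' with hLy
      have hLy1 : ∀ i ∈ Ly, i ∈ L0 := by
        intro i hi
        rw [hLy, List.mem_map] at hi
        obtain ⟨j, hj, rfl⟩ := hi
        exact hsub1.subset (hy1 j (List.mem_range.1 hj)).1
      have hrep : ∀ ρ : ι → K, (∀ y, y <:+: w → (wval φ ρ y).rank = (wval φ ρ0 y).rank) →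
          RepM r Ly ρ (fun q => wval φ q w) := by
        intro ρ hρ
        refine chain_rep t (fun j => x (a + j * d)) hmono y' (fun j hj => (hy1 j hj).2.1)
          (fun j hj => (hy1 j hj).2.2) hndy ρ
          ((wval φ ρ0 (seg w (x a) (x (a + (2 * t + 1) * d)))).rank) (fun j hj => ?_) ?_
        · rw [hρ _ (seg_infix _ _ _)]
          exact hconst j hj
        · rw [hρ _ (seg_infix _ _ _), zero_mul, add_zero]
      have hlenLy : 2 ^ (s + s) ≤ Ly.length := by
        rw [hLy, List.length_map, List.length_range]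
      rcases erdos_szekeres (fun i => L0.idxOf i) (s + s) s s rfl Ly (fun i hi j hj hij =>
        (List.idxOf_inj (hLy1 i hi)).1 hij) hndy hlenLy with ⟨L', h7, h8, h9⟩ | ⟨L', h7, h8, h9⟩
      · refine ⟨L', sublist_of_pairwise (fun i hi => hLy1 i (h7.subset hi)) h9, h8,
          fun ρ hρ => ?_⟩
        exact ((hrep ρ hρ).sublist hndy h7).mono hWr
      · refine ⟨L'.reverse, sublist_of_pairwise
          (fun i hi => hLy1 i (h7.subset (List.mem_reverse.1 hi)))
          (List.pairwise_reverse.2 h9), by simp [h8], fun ρ hρ => ?_⟩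
        exact (((hrep ρ hρ).sublist hndy h7).reverse).mono hWr

end Pool.Agent.RW
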