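import Mathlib
import Pool.Agent.Work.RW.Reg

/-!
# The local search theorem for words
-/

set_option autoImplicit false

namespace Pool.Agent.RW

open Function Polynomial Matrix Pool.Agent.RK

variable {K : Type} [Field K] {ι V : Type} {r : ℕ}

/-- Each minor vanishes identically on the slice through `ρ` in the directions `A`, or is nonzero
at `ρ`. -/
def GoodW (φ : V → ι) (A : Set ι) (ρ : ι → K) (w : Word K V r) : Prop :=
  ∀ (j : ℕ), j ≤ r → ∀ (e f : Fin j → Fin r),
    (∀ q : ι → K, (∀ i, i ∉ A → q i = ρ i) → mnr φ e f w q = 0) ∨ mnr φ e f w ρ ≠ 0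

theorem GoodW.rank_le {φ : V → ι} {A : Set ι} {ρ : ι → K} {w : Word K V r}
    (h : GoodW φ A ρ w) {q : ι → K} (hq : ∀ i, i ∉ A → q i = ρ i) :
    (wval φ q w).rank ≤ (wval φ ρ w).rank := by
  obtain ⟨e, f, hef⟩ := exists_minor (wval φ q w) rfl
  rcases h _ (rank_le_width _) e f with h1 | h1
  · exact absurd (h1 q hq) hef
  · exact le_rank_of_minor (A := wval φ ρ w) h1

theorem one_le_wW (r k : ℕ) : 1 ≤ wW r k := by
  cases k with
  | zero => exact le_refl _
  | succ k => rw [wW]; omega

/-- The size of the representations of the minors. -/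
def wS (r k : ℕ) : ℕ := r.factorial * (r * (wW r k * wW r k) + 1) ^ r

/-- The number of coordinates in the local search theorem. -/
def wL (r c k : ℕ) : ℕ := wN r c k (wS r k + 1)

theorem infix_eq_seg {w y : Word K V r} (h : y <:+: w) :
    ∃ a b, a ≤ w.length ∧ b ≤ w.length ∧ y = seg w a b := by
  obtain ⟨s, t, hst⟩ := h
  refine ⟨s.length, s.length + y.length, ?_, ?_, ?_⟩
  · rw [← hst]; simp only [List.length_append]; omega
  · rw [← hst]; simp only [List.length_append]; omega
  · unfold seg
    rw [← hst, List.append_assoc, List.drop_left', Nat.add_sub_cancel_left, List.take_left']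
    · rfl
    · rfl

/-- The set of parameters at which some segment has too small a rank is finite. -/
theorem ranks_line_finite (φ : V → ι) (w : Word K V r) (a b : ι → K) (t0 : K) :
    {t : K | ∃ y, y <:+: w ∧ (wval φ (fun i => a i + t * b i) y).rank <
      (wval φ (fun i => a i + t0 * b i) y).rank}.Finite := by
  refine (Set.Finite.biUnion (Finset.finite_toSet (Finset.range (w.length + 1))) (fun x _ =>
    Set.Finite.biUnion (Finset.finite_toSet (Finset.range (w.length + 1))) (fun z _ =>
      rank_line_finite φ (seg w x z) a b t0))).subset ?_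
  rintro t ⟨y, hy, ht⟩
  obtain ⟨x, z, hx, hz, rfl⟩ := infix_eq_seg hy
  simp only [Set.mem_iUnion, Finset.coe_range, Set.mem_Iio]
  exact ⟨x, by omega, z, by omega, ht⟩

/-- **The local search theorem for words.** -/
theorem local_word [Infinite K] [Nonempty ι] (k c : ℕ) (φ : V → ι) (w : Word K V r)
    (A : Set ι) (ρ : ι → K) (hfib : ∀ v ∈ A, (fib φ w v).encard ≤ k) (hthin : Thin c w)
    (hgood : ∀ y, y <:+: w.tail → GoodW φ A ρ y) {j : ℕ} (hj : j ≤ r) (e f : Fin j → Fin r)
    (hex : ∃ q : ι → K, (∀ i, i ∉ A → q i = ρ i) ∧ mnr φ e f w q ≠ 0) :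
    ∃ (q : ι → K) (D : Finset ι), D.card ≤ wL r c k ∧ (∀ i ∈ D, i ∈ A) ∧
      (∀ i, i ∉ D → q i = ρ i) ∧ mnr φ e f w q ≠ 0 := by
  classical
  obtain ⟨q0, hq0, hq0'⟩ := hex
  -- the variables of the word
  set S : Finset ι := (w.map (fun l => φ l.1)).toFinset with hS
  have hSocc : ∀ v, Occ φ w v → v ∈ S := by
    rintro v ⟨l, h1, h2⟩
    rw [hS, List.mem_toFinset, List.mem_map]
    exact ⟨l, h1, h2⟩
  have hne : ∃ n : ℕ, ∃ (D : Finset ι) (q : ι → K), D.card = n ∧ (∀ i ∈ D, i ∈ A) ∧
      (∀ i, i ∉ D → q i = ρ i) ∧ mnr φ e f w q ≠ 0 := by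
    refine ⟨_, S.filter (fun i => i ∈ A), fun i => if i ∈ S then q0 i else ρ i, rfl,
      fun i hi => (Finset.mem_filter.1 hi).2, fun i hi => ?_, ?_⟩
    · by_cases hiS : i ∈ S
      · simp only [hiS, if_true]
        refine hq0 i (fun hiA => hi (Finset.mem_filter.2 ⟨hiS, hiA⟩))
      · simp only [hiS, if_false]
    · have h1 : wval φ (fun i => if i ∈ S then q0 i else ρ i) w = wval φ q0 w := by
        refine wval_congr (fun v hv => ?_)
        simp only [hSocc v hv, if_true]
      unfold mnr at hq0' ⊢
      rw [h1]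
      exact hq0'
  obtain ⟨D, q, hD, hDA, hDq, hqne⟩ := Nat.find_spec hne
  have hmin : ∀ (D' : Finset ι) (q' : ι → K), (∀ i ∈ D', i ∈ A) → (∀ i, i ∉ D' → q' i = ρ i) →
      mnr φ e f w q' ≠ 0 → D.card ≤ D'.card := by
    intro D' q' h1 h2 h3
    rw [hD]
    exact Nat.find_min' hne ⟨D', q', rfl, h1, h2, h3⟩
  refine ⟨q, D, ?_, hDA, hDq, hqne⟩
  by_contra hcard
  push Not at hcard
  cases hw : w with
  | nil =>
    have h1 := hmin ∅ ρ (by simp) (by simp) (by
      unfold mnr at hqne ⊢
      rw [hw] at hqne ⊢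
      exact hqne)
    simp at h1
    rw [h1] at hcard
    simp at hcard
  | cons l w' =>
    have htail : w.tail = w' := by rw [hw]; rfl
    rw [htail] at hgood
    have hin : w' <:+: w := by rw [hw]; exact (List.suffix_cons l w').isInfix
    obtain ⟨L, hL1, hL2, hL3⟩ := reg_word c k (wS r k + 1) φ w' D.toList ρ D.nodup_toList
      (by rw [Finset.length_toList]; exact hcard.le)
      (fun v hv => (Set.encard_le_encard (fib_mono (fun x hx => hin.subset hx) v)).trans
        (hfib v (hDA v (Finset.mem_toList.1 hv)))) (hthin.ofInfix hin)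
    have hLnd : L.Nodup := hL1.nodup D.nodup_toList
    set L' := L.erase (φ l.1) with hL'
    have hsubL : L'.Sublist L := List.erase_sublist
    have hL'nd : L'.Nodup := hsubL.nodup hLnd
    have hL'len : wS r k ≤ L'.length := by
      have : L.length ≤ L'.length + 1 := by
        rw [hL', List.length_erase]
        split_ifs <;> omega
      omega
    have hL'0 : φ l.1 ∉ L' := by
      rw [hL']
      exact fun h => (List.Nodup.mem_erase_iff hLnd).1 h |>.1 rfl
    have hLD : ∀ i ∈ L', i ∈ D := fun i hi =>
      Finset.mem_toList.1 (hL1.subset (hsubL.subset hi))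
    set bb : ι → K := fun i => if i ∈ L' then 0 else q i - ρ i with hbb
    set aa : ι → K := fun i => if i ∈ L' then q i else ρ i with haa
    have e0 : (fun i => ρ i + (0 : K) * bb i) = ρ := by funext i; simp
    have e1 : (fun i => aa i + (1 : K) * bb i) = q := by
      funext i
      by_cases hi : i ∈ L' <;> simp [haa, hbb, hi]
    have f1 := ranks_line_finite φ w' ρ bb 0
    have f2 := mnr_line_finite φ e f w aa bb (t0 := 1) (by rw [e1]; exact hqne)
    obtain ⟨t, ht⟩ := (f1.union f2).toFinset.exists_notMem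
    rw [Set.Finite.mem_toFinset, Set.mem_union, not_or] at ht
    simp only [Set.mem_ofPred_eq, not_exists, not_and, not_lt] at ht
    rw [e0] at ht
    have hslice : ∀ i, i ∉ A → ρ i + t * bb i = ρ i := by
      intro i hi
      have h1 : i ∉ D := fun h => hi (hDA i h)
      simp [hbb, hDq i h1]
    have hranks : ∀ y, y <:+: w' →
        (wval φ (fun i => ρ i + t * bb i) y).rank = (wval φ ρ y).rank := fun y hy =>
      le_antisymm ((hgood y hy).rank_le hslice) (ht.1 y hy)
    have hrep := (hL3 _ hranks).sublist hLnd hsubL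
    have hrepl : RepM 1 L' (fun i => ρ i + t * bb i)
        (fun q => wval φ q ([l] : Word K V r)) := by
      refine RepM.of_const (fun q' hq' => wval_congr (fun v hv => ?_))
      obtain ⟨l', h1, h2⟩ := hv
      rw [List.mem_singleton] at h1
      subst h1
      exact hq' v (by rw [← h2]; exact hL'0)
    have hrepw : RepM (r * (wW r k * wW r k)) L' (fun i => ρ i + t * bb i)
        (fun q => wval φ q w) := by
      refine ((hrepl.mono (one_le_wW r k)).mul hrep).congr (fun q' _ => ?_)
      rw [hw, ← wval_append]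
      rfl
    have hrepm := hrepw.minor e f
    have hsize : j.factorial * (r * (wW r k * wW r k)) ^ j ≤ wS r k := by
      unfold wS
      refine Nat.mul_le_mul (Nat.factorial_le hj) ?_
      exact (Nat.pow_le_pow_left (Nat.le_succ _) j).trans (Nat.pow_le_pow_right (Nat.succ_pos _) hj)
    apply ht.2
    refine (hrepm.mono hsize).eq_zero hL'nd hL'len (fun q' hq' hex => ?_) _ (fun i hi => ?_)
    · by_contra hne'
      obtain ⟨i, hi, hi2⟩ := hex
      have h5 := hmin (D.erase i) q' (fun j hj => hDA j (Finset.mem_of_mem_erase hj))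
        (fun j hj => by
          by_cases hji : j = i
          · rw [hji, hi2]
            simp [hbb, hi]
          · have hjD : j ∉ D := fun h => hj (Finset.mem_erase.2 ⟨hji, h⟩)
            have hjL : j ∉ L' := fun h => hjD (hLD j h)
            rw [hq' j hjL]
            simp [hbb, hDq j hjD]) hne'
      have h6 := Finset.card_erase_lt_of_mem (hLD i hi)
      omega
    · simp only [haa, hbb, hi, if_false]

end Pool.Agent.RW
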