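import Mathlib
import Pool.Agent.Work.MP_3c5c20_lc.BRAlg
import Pool.Agent.Work.RK.Form

/-!
# Rounding, moving and climbing
-/

set_option autoImplicit false

namespace Pool.Agent.PIT.RWA

open Function Polynomial Pool.Agent.PIT.BR

/-- Functions which are polynomials of degree at most `d` in each coordinate, and polynomials on
all lines. -/
def CP (d : ℕ) (F : (Name → ℚ) → ℚ) : Prop :=
  (∀ (q : Name → ℚ) (v : Name), ∃ P : ℚ[X], P.natDegree ≤ d ∧
    ∀ t : ℚ, F (update q v t) = P.eval t) ∧
  (∀ a b : Name → ℚ, ∃ P : ℚ[X], ∀ t : ℚ, F (fun i => a i + t * b i) = P.eval t)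

/-- A value of one coordinate in `{0, …, B}` at which finitely many functions stay nonzero. -/
theorem exists_coord' {d : ℕ} {G : List ((Name → ℚ) → ℚ)} (hd : ∀ g ∈ G, CP d g) {q : Name → ℚ}
    (v : Name) (hG : ∀ g ∈ G, g q ≠ 0) {B : ℕ} (hB : G.length * d ≤ B) :
    ∃ t : ℕ, t ≤ B ∧ ∀ g ∈ G, g (update q v (t : ℚ)) ≠ 0 := by
  have key : ∃ P : ℚ[X], P ≠ 0 ∧ P.natDegree ≤ G.length * d ∧
      ∀ t : ℚ, P.eval t ≠ 0 → ∀ g ∈ G, g (update q v t) ≠ 0 := by
    clear hB
    induction G with
    | nil => exact ⟨1, one_ne_zero, by simp, by simp⟩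
    | cons g G ih =>
      obtain ⟨P, h1, h2, h3⟩ := ih (fun g hg => hd g (List.mem_cons_of_mem _ hg))
        (fun g hg => hG g (List.mem_cons_of_mem _ hg))
      obtain ⟨Q, h4, h5⟩ := (hd g List.mem_cons_self).1 q v
      have hQ : Q ≠ 0 := by
        rintro rfl
        apply hG g List.mem_cons_self
        have := h5 (q v)
        rw [update_eq_self] at this
        rw [this]
        simp
      refine ⟨Q * P, mul_ne_zero hQ h1, ?_, fun t ht g' hg' => ?_⟩
      · have := natDegree_mul_le (p := Q) (q := P)
        rw [List.length_cons, Nat.add_mul]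
        omega
      · rw [eval_mul] at ht
        rcases List.mem_cons.1 hg' with rfl | hg'
        · rw [h5]
          exact left_ne_zero_of_mul ht
        · exact h3 t (right_ne_zero_of_mul ht) g' hg'
  obtain ⟨P, h1, h2, h3⟩ := key
  obtain ⟨t, h4, h5⟩ := exists_nat_nonroot h1 (h2.trans hB)
  exact ⟨t, h4, h3 t h5⟩

/-- Rounding of a point. -/
theorem exists_round' {d : ℕ} {G : List ((Name → ℚ) → ℚ)} (hd : ∀ g ∈ G, CP d g) {B : ℕ}
    (hB : G.length * d ≤ B) (p : Name → ℕ) (D : Finset Name) :
    ∀ q : Name → ℚ, (∀ i, i ∉ D → q i = p i) → (∀ g ∈ G, g q ≠ 0) →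
    ∃ p' : Name → ℕ, (∀ i, i ∉ D → p' i = p i) ∧ (∀ i ∈ D, p' i ≤ B) ∧
      ∀ g ∈ G, g (fun i => (p' i : ℚ)) ≠ 0 := by
  induction D using Finset.induction_on generalizing p with
  | empty =>
    intro q hq hG
    refine ⟨p, fun _ _ => rfl, by simp, fun g hg => ?_⟩
    have : q = fun i => (p i : ℚ) := funext (fun i => hq i (by simp))
    rw [← this]
    exact hG g hg
  | insert a D ha ih =>
    intro q hq hG
    obtain ⟨t, h1, h2⟩ := exists_coord' hd a hG hB
    obtain ⟨p', h3, h4, h5⟩ := ih (update p a t) (update q a (t : ℚ)) (fun i hi => by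
      by_cases hia : i = a
      · subst hia; simp
      · rw [update_of_ne hia, update_of_ne hia]
        exact hq i (by simp [hia, hi])) h2
    refine ⟨p', fun i hi => ?_, fun i hi => ?_, h5⟩
    · rw [Finset.mem_insert, not_or] at hi
      rw [h3 i hi.2, update_of_ne hi.1]
    · by_cases hiD : i ∈ D
      · exact h4 i hiD
      · rcases Finset.mem_insert.1 hi with rfl | hi
        · rw [h3 i hiD, update_self]
          exact h1
        · exact absurd hi hiD

/-- Moving from a point where many functions are nonzero to a point where one more is nonzero. -/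
theorem exists_move' {d : ℕ} {G : List ((Name → ℚ) → ℚ)} {g : (Name → ℚ) → ℚ}
    (hd : ∀ g' ∈ g :: G, CP d g') {B : ℕ} (hB : (G.length + 1) * d ≤ B)
    (p : Name → ℕ) (D : Finset Name) (q : Name → ℚ) (hq : ∀ i, i ∉ D → q i = p i)
    (hG : ∀ g' ∈ G, g' (fun i => (p i : ℚ)) ≠ 0) (hg : g q ≠ 0) :
    ∃ p' : Name → ℕ, (∀ i, i ∉ D → p' i = p i) ∧ (∀ i ∈ D, p' i ≤ B) ∧
      ∀ g' ∈ g :: G, g' (fun i => (p' i : ℚ)) ≠ 0 := by
  have hfin1 : ∀ (F : (Name → ℚ) → ℚ), CP d F → ∀ (a b : Name → ℚ) (t0 : ℚ),
      F (fun i => a i + t0 * b i) ≠ 0 → {t : ℚ | F (fun i => a i + t * b i) = 0}.Finite := by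
    intro F hF a b t0 h0
    obtain ⟨P, hP⟩ := hF.2 a b
    exact RK.finite_zeros_of_poly P hP h0
  have hfin : ∀ G : List ((Name → ℚ) → ℚ), (∀ g' ∈ G, CP d g') →
      (∀ g' ∈ G, g' (fun i => (p i : ℚ)) ≠ 0) →
      {t : ℚ | ∃ g' ∈ G, g' (fun i => (p i : ℚ) + t * (q i - p i)) = 0}.Finite := by
    intro G
    induction G with
    | nil => intro _ _; simp
    | cons g' G ih =>
      intro hd h
      have h1 := ih (fun g'' hg'' => hd g'' (List.mem_cons_of_mem _ hg''))
        (fun g'' hg'' => h g'' (List.mem_cons_of_mem _ hg''))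
      have h2 := hfin1 g' (hd g' List.mem_cons_self) (fun i => (p i : ℚ)) (fun i => q i - p i) 0
        (by simpa using h g' List.mem_cons_self)
      refine (h1.union h2).subset (fun t ht => ?_)
      obtain ⟨g'', hg'', ht⟩ := ht
      rcases List.mem_cons.1 hg'' with rfl | hg''
      · right
        exact ht
      · left
        exact ⟨g'', hg'', ht⟩
  have h1 := hfin G (fun g' hg' => hd g' (List.mem_cons_of_mem _ hg')) hG
  have h2 := hfin1 g (hd g List.mem_cons_self) (fun i => (p i : ℚ)) (fun i => q i - p i) 1 (by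
    have : (fun i => (p i : ℚ) + 1 * (q i - p i)) = q := by funext i; ring
    rw [this]
    exact hg)
  obtain ⟨t, ht⟩ := (h1.union h2).toFinset.exists_notMem
  rw [Set.Finite.mem_toFinset, Set.mem_union, not_or] at ht
  refine exists_round' hd (by rw [List.length_cons]; exact hB) p D
    (fun i => (p i : ℚ) + t * (q i - p i)) (fun i hi => by
    rw [hq i hi]; ring) (fun g' hg' => ?_)
  rcases List.mem_cons.1 hg' with rfl | hg'
  · intro h0
    exact ht.2 h0
  · intro h0
    exact ht.1 ⟨g', hg', h0⟩

/-! ### Climbing -/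

section

variable {τ : Type}

/-- `c` passes all tests that `p` passes, and one more. -/
def betterG (T : List τ) (P : Env → τ → Bool) (p c : Env) : Bool :=
  T.all (fun j => !P p j || P c j) && T.any (fun j => P c j && !P p j)

/-- One step of the search. -/
def moveG (T : List τ) (P : Env → τ → Bool) (w B : ℕ) (vs : List Name) (p : Env) : Env :=
  ((cands vs B w p).filter (fun c => betterG T P p c)).headD p

/-- The search. -/
def climbG (T : List τ) (P : Env → τ → Bool) (w B : ℕ) (vs : List Name) (p : Env) : Env :=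
  (fun p => moveG T P w B vs p)^[T.length + 1] p

theorem scoreG_lt {T : List τ} {P : Env → τ → Bool} {p c : Env} (h : betterG T P p c = true) :
    T.countP (P p) < T.countP (P c) := by
  unfold betterG at h
  rw [Bool.and_eq_true, List.all_eq_true, List.any_eq_true] at h
  obtain ⟨h1, j, hj, h2⟩ := h
  refine countP_lt (fun i hi hP => ?_) ⟨j, hj, ?_⟩
  · have := h1 i hi
    rw [hP] at this
    simpa using this
  · rw [Bool.and_eq_true, Bool.not_eq_true'] at h2
    exact h2

theorem moveG_cases (T : List τ) (P : Env → τ → Bool) (w B : ℕ) (vs : List Name) (p : Env) :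
    (moveG T P w B vs p = p ∧ ∀ c ∈ cands vs B w p, betterG T P p c = false) ∨
    (moveG T P w B vs p ∈ cands vs B w p ∧ betterG T P p (moveG T P w B vs p) = true) := by
  unfold moveG
  cases h : (cands vs B w p).filter (fun c => betterG T P p c) with
  | nil =>
    left
    refine ⟨rfl, fun c hc => ?_⟩
    rw [List.filter_eq_nil_iff] at h
    simpa using h c hc
  | cons c l =>
    right
    have : c ∈ (cands vs B w p).filter (fun c => betterG T P p c) := by
      rw [h]; exact List.mem_cons_self
    rw [List.mem_filter] at this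
    exact this

theorem climbG_max (T : List τ) (P : Env → τ → Bool) (w B : ℕ) (vs : List Name) (p : Env) :
    ∀ c ∈ cands vs B w (climbG T P w B vs p), betterG T P (climbG T P w B vs p) c = false := by
  set f : Env → Env := fun p => moveG T P w B vs p with hf
  have hstuck : ∀ p, (∀ c ∈ cands vs B w p, betterG T P p c = false) → f p = p := by
    intro p hp
    rcases moveG_cases T P w B vs p with h | h
    · exact h.1
    · rw [hp _ h.1] at h
      exact absurd h.2 (by simp)
  have key : ∀ i, (∀ c ∈ cands vs B w (f^[i] p), betterG T P (f^[i] p) c = false) ∨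
      i ≤ T.countP (P (f^[i] p)) := by
    intro i
    induction i with
    | zero => right; omega
    | succ i ih =>
      rw [iterate_succ_apply']
      rcases ih with ih | ih
      · left
        rw [hstuck _ ih]
        exact ih
      · rcases moveG_cases T P w B vs (f^[i] p) with h | h
        · left
          have h1 : f (f^[i] p) = f^[i] p := h.1
          rw [h1]
          exact h.2
        · right
          have := scoreG_lt h.2
          have h1 : f (f^[i] p) = moveG T P w B vs (f^[i] p) := rfl
          rw [h1]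
          omega
  rcases key (T.length + 1) with h | h
  · exact h
  · exfalso
    have h1 : T.countP (P (f^[T.length + 1] p)) ≤ T.length := List.countP_le_length
    omega

theorem climbG_bound {T : List τ} {P : Env → τ → Bool} {w B : ℕ} {vs : List Name} {p : Env}
    (hp : ∀ v, look p v ≤ B) : (∀ v, look (climbG T P w B vs p) v ≤ B) ∧
      ∀ v, v ∉ vs → look (climbG T P w B vs p) v = look p v := by
  unfold climbG
  generalize T.length + 1 = n
  induction n with
  | zero => exact ⟨hp, fun _ _ => rfl⟩
  | succ n ih =>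
    rw [iterate_succ_apply']
    set r := (fun p => moveG T P w B vs p)^[n] p with hr
    rcases moveG_cases T P w B vs r with h | h
    · rw [h.1]
      exact ih
    · obtain ⟨h1, h2⟩ := cands_bound ih.1 h.1
      exact ⟨h1, fun v hv => (h2 v hv).trans (ih.2 v hv)⟩

end

end Pool.Agent.PIT.RWA
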