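import Mathlib
import Pool.Agent.Work.RW.Lang
import Pool.Agent.Work.RW.Local
import Pool.Agent.Work.RW.Search

/-!
# Branching programs as words
-/

set_option autoImplicit false

namespace Pool.Agent.PIT.RWA

open Function Polynomial Matrix Pool.Agent.RW Pool.Agent.PIT.BR

variable {r : ℕ}

/-- The word of a program. -/
noncomputable def toW (p : BP r) : Word ℚ Name r :=
  p.map (fun l => (l.1, Matrix.of (fun i j => C ((bval (l.2.1 i j) : ℤ) : ℚ) +
    C ((bval (l.2.2 i j) : ℤ) : ℚ) * X)))

/-- The value of a program at an integer point. -/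
def imat (g : Name → ℤ) (p : BP r) : Matrix (Fin r) (Fin r) ℤ :=
  (p.map (fun l => Matrix.of (fun i j => bval (l.2.1 i j) + bval (l.2.2 i j) * g l.1))).prod

theorem imat_nil (g : Name → ℤ) : imat g ([] : BP r) = 1 := rfl

theorem imat_cons (g : Name → ℤ) (l : Name × (BMat r × BMat r)) (p : BP r) :
    imat g (l :: p) = Matrix.of (fun i j => bval (l.2.1 i j) + bval (l.2.2 i j) * g l.1) *
      imat g p := by
  unfold imat
  rw [List.map_cons, List.prod_cons]

theorem bpMat_eval (g : Name → ℤ) (p : BP r) :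
    (bpMat p).map (MvPolynomial.eval g) = imat g p := by
  induction p with
  | nil =>
    unfold bpMat imat
    rw [List.map_nil, List.prod_nil, List.map_nil, List.prod_nil]
    exact Matrix.map_one _ (by simp) (by simp)
  | cons l p ih =>
    have h1 : bpMat (l :: p) = Matrix.of (fun i j => MvPolynomial.C (bval (l.2.1 i j)) +
        MvPolynomial.C (bval (l.2.2 i j)) * MvPolynomial.X l.1) * bpMat p := by
      unfold bpMat
      rw [List.map_cons, List.prod_cons]
    rw [h1, Matrix.map_mul, ih, imat_cons]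
    congr 1
    ext i j
    simp

theorem wval_toW (g : Name → ℤ) (p : BP r) :
    RW.wval id (fun v => (g v : ℚ)) (toW p) = (imat g p).map (Int.cast : ℤ → ℚ) := by
  induction p with
  | nil =>
    rw [imat_nil]
    exact (Matrix.map_one (Int.cast : ℤ → ℚ) (by simp) (by simp)).symm
  | cons l p ih =>
    have h1 : RW.wval id (fun v => (g v : ℚ)) (toW (l :: p)) =
        (Matrix.of (fun i j => C ((bval (l.2.1 i j) : ℤ) : ℚ) +
          C ((bval (l.2.2 i j) : ℤ) : ℚ) * X)).map (Polynomial.eval ((g l.1 : ℤ) : ℚ)) *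
        RW.wval id (fun v => (g v : ℚ)) (toW p) := by
      unfold RW.wval toW
      rw [List.map_cons, List.map_cons, List.prod_cons]
      rfl
    rw [h1, ih, imat_cons]
    have h2 := Matrix.map_mul (L := Matrix.of (fun i j => bval (l.2.1 i j) +
      bval (l.2.2 i j) * g l.1)) (M := imat g p) (f := Int.castRingHom ℚ)
    rw [show (⇑(Int.castRingHom ℚ) : ℤ → ℚ) = Int.cast from rfl] at h2
    rw [h2]
    congr 1
    ext i j
    simp

theorem toW_seg (p : BP r) (a b : ℕ) : toW ((p.drop a).take (b - a)) = seg (toW p) a b := by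
  unfold toW seg
  rw [List.map_take, List.map_drop]

theorem toW_length (p : BP r) : (toW p).length = p.length := by
  unfold toW
  rw [List.length_map]

/-- The minors at integer points. -/
def imin (g : Name → ℤ) (p : BP r) {j : ℕ} (e f : Fin j → Fin r) : ℤ :=
  ((imat g p).submatrix e f).det

theorem mnr_toW (g : Name → ℤ) (p : BP r) {j : ℕ} (e f : Fin j → Fin r) :
    mnr id e f (toW p) (fun v => (g v : ℚ)) = (imin g p e f : ℚ) := by
  unfold mnr imin
  rw [wval_toW, show ((imat g p).map (Int.cast : ℤ → ℚ)).submatrix e f =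
    ((imat g p).submatrix e f).map (Int.castRingHom ℚ) from rfl]
  exact (RingHom.map_det (Int.castRingHom ℚ) ((imat g p).submatrix e f)).symm

/-! ### Degrees -/

theorem natDegree_mul_entry_le {M N : Matrix (Fin r) (Fin r) ℚ[X]} {a b : ℕ}
    (hM : ∀ i j, (M i j).natDegree ≤ a) (hN : ∀ i j, (N i j).natDegree ≤ b) (i j : Fin r) :
    ((M * N) i j).natDegree ≤ a + b := by
  rw [Matrix.mul_apply]
  refine natDegree_sum_le_of_forall_le _ _ (fun x _ => ?_)
  refine natDegree_mul_le.trans ?_
  exact Nat.add_le_add (hM i x) (hN x j)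

theorem natDegree_det_le {j a : ℕ} {M : Matrix (Fin j) (Fin j) ℚ[X]}
    (hM : ∀ i j, (M i j).natDegree ≤ a) : M.det.natDegree ≤ j * a := by
  rw [Matrix.det_apply']
  refine natDegree_sum_le_of_forall_le _ _ (fun σ _ => ?_)
  refine natDegree_mul_le.trans ?_
  have h1 : ((((Equiv.Perm.sign σ : ℤˣ) : ℤ) : ℚ[X])).natDegree = 0 := natDegree_intCast _
  rw [h1, zero_add]
  refine (natDegree_prod_le _ _).trans ?_
  refine (Finset.sum_le_card_nsmul _ _ a (fun i _ => hM _ _)).trans ?_
  rw [Finset.card_univ, Fintype.card_fin, smul_eq_mul]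

/-- Along a curve with coordinates of degree at most one, the entries have degree at most the
length of the program. -/
theorem toW_curve (p : BP r) (c : Name → ℚ[X]) (hc : ∀ i, (c i).natDegree ≤ 1) :
    ∃ M : Matrix (Fin r) (Fin r) ℚ[X], (∀ i j, (M i j).natDegree ≤ p.length) ∧ ∀ t : ℚ,
      RW.wval id (fun i => (c i).eval t) (toW p) = M.map (Polynomial.eval t) := by
  induction p with
  | nil =>
    refine ⟨1, fun i j => ?_, fun t => ?_⟩
    · rw [Matrix.one_apply]
      split_ifs <;> simp
    · exact (Matrix.map_one (Polynomial.eval t) (by simp) (by simp)).symm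
  | cons l p ih =>
    obtain ⟨M, hM1, hM2⟩ := ih
    refine ⟨Matrix.of (fun i j => C ((bval (l.2.1 i j) : ℤ) : ℚ) +
      C ((bval (l.2.2 i j) : ℤ) : ℚ) * c l.1) * M, fun i j => ?_, fun t => ?_⟩
    · refine (natDegree_mul_entry_le (a := 1) (fun i j => ?_) hM1 i j).trans (by
        rw [List.length_cons]; omega)
      rw [Matrix.of_apply]
      refine (natDegree_add_le _ _).trans ?_
      rw [natDegree_C]
      refine max_le (Nat.zero_le _) ?_
      exact (natDegree_C_mul_le _ _).trans (hc l.1)
    · have h1 : RW.wval id (fun i => (c i).eval t) (toW (l :: p)) =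
          (Matrix.of (fun i j => C ((bval (l.2.1 i j) : ℤ) : ℚ) +
            C ((bval (l.2.2 i j) : ℤ) : ℚ) * X)).map (Polynomial.eval ((c l.1).eval t)) *
          RW.wval id (fun i => (c i).eval t) (toW p) := by
        unfold RW.wval toW
        rw [List.map_cons, List.map_cons, List.prod_cons]
        rfl
      rw [h1, hM2]
      have h2 := Matrix.map_mul (L := Matrix.of (fun i j => C ((bval (l.2.1 i j) : ℤ) : ℚ) +
        C ((bval (l.2.2 i j) : ℤ) : ℚ) * c l.1)) (M := M) (f := Polynomial.evalRingHom t)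
      rw [Polynomial.coe_evalRingHom] at h2
      rw [h2]
      congr 1
      ext i j
      simp

theorem mnr_toW_curve (p : BP r) {j : ℕ} (e f : Fin j → Fin r) (c : Name → ℚ[X])
    (hc : ∀ i, (c i).natDegree ≤ 1) : ∃ P : ℚ[X], P.natDegree ≤ j * p.length ∧
      ∀ t : ℚ, mnr id e f (toW p) (fun i => (c i).eval t) = P.eval t := by
  obtain ⟨M, hM1, hM2⟩ := toW_curve p c hc
  refine ⟨(M.submatrix e f).det, natDegree_det_le (fun i j => hM1 _ _), fun t => ?_⟩
  unfold mnr
  rw [hM2]
  have h := RingHom.map_det (Polynomial.evalRingHom t) (M.submatrix e f)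
  rw [Polynomial.coe_evalRingHom] at h
  rw [h]
  rfl

theorem mnr_cp (p : BP r) {j : ℕ} (e f : Fin j → Fin r) {d : ℕ} (hd : j * p.length ≤ d) :
    CP d (mnr id e f (toW p)) := by
  constructor
  · intro q v
    obtain ⟨P, hP1, hP2⟩ := mnr_toW_curve p e f (update (fun i => C (q i)) v X) (fun i => by
      by_cases hi : i = v
      · subst hi; rw [update_self]; exact natDegree_X_le
      · rw [update_of_ne hi]; simp)
    refine ⟨P, hP1.trans hd, fun t => ?_⟩
    rw [← hP2]
    congr 1
    funext i
    by_cases hi : i = v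
    · subst hi; simp
    · simp [update_of_ne hi]
  · intro a b
    obtain ⟨P, hP1, hP2⟩ := mnr_toW_curve p e f (fun i => C (a i) + X * C (b i)) (fun i => by
      refine (natDegree_add_le _ _).trans ?_
      rw [natDegree_C]
      refine max_le (Nat.zero_le _) ?_
      rw [mul_comm]
      exact (natDegree_C_mul_le _ _).trans natDegree_X_le)
    refine ⟨P, fun t => ?_⟩
    rw [← hP2]
    congr 1
    funext i
    simp only [eval_add, eval_mul, eval_C, eval_X]

/-! ### Bounds for the values -/

theorem abs_mul_entry_le {M N : Matrix (Fin r) (Fin r) ℤ} {a b : ℤ} (ha : 0 ≤ a)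
    (hM : ∀ i j, |M i j| ≤ a) (hN : ∀ i j, |N i j| ≤ b) (i j : Fin r) :
    |(M * N) i j| ≤ (r : ℤ) * a * b := by
  rw [Matrix.mul_apply]
  refine (Finset.abs_sum_le_sum_abs _ _).trans ?_
  have h1 : ∀ x ∈ (Finset.univ : Finset (Fin r)), |M i x * N x j| ≤ a * b := by
    intro x _
    rw [abs_mul]
    exact mul_le_mul (hM i x) (hN x j) (abs_nonneg _) ha
  refine (Finset.sum_le_card_nsmul _ _ _ h1).trans ?_
  rw [Finset.card_univ, Fintype.card_fin, nsmul_eq_mul, mul_assoc]

theorem abs_imat_le (g : Name → ℤ) {E : ℤ} (hE : 1 ≤ E) (p : BP r)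
    (hp : ∀ l ∈ p, ∀ i j, |bval (l.2.1 i j) + bval (l.2.2 i j) * g l.1| ≤ E) :
    ∀ i j, |imat g p i j| ≤ ((r : ℤ) * E) ^ p.length + 1 := by
  have key : ∀ p : BP r, (∀ l ∈ p, ∀ i j, |bval (l.2.1 i j) + bval (l.2.2 i j) * g l.1| ≤ E) →
      ∀ i j, |imat g p i j| ≤ ((r : ℤ) * E) ^ p.length := by
    intro p
    induction p with
    | nil =>
      intro _ i j
      rw [imat_nil, Matrix.one_apply, List.length_nil, pow_zero]
      split_ifs <;> simp
    | cons l p ih =>
      intro hp i j
      rw [imat_cons]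
      refine (abs_mul_entry_le (a := E) (by omega) (fun i j => by
        rw [Matrix.of_apply]
        exact hp l List.mem_cons_self i j)
        (ih (fun l' hl' => hp l' (List.mem_cons_of_mem _ hl'))) i j).trans ?_
      rw [List.length_cons, pow_succ]
      exact le_of_eq (by ring)
  intro i j
  exact (key p hp i j).trans (by omega)

theorem abs_det_le {j : ℕ} {M : Matrix (Fin j) (Fin j) ℤ} {a : ℤ}
    (hM : ∀ i j, |M i j| ≤ a) : |M.det| ≤ (j.factorial : ℤ) * a ^ j := by
  rw [Matrix.det_apply']
  refine (Finset.abs_sum_le_sum_abs _ _).trans ?_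
  have h1 : ∀ σ ∈ (Finset.univ : Finset (Equiv.Perm (Fin j))),
      |((Equiv.Perm.sign σ : ℤ) : ℤ) * ∏ i, M (σ i) i| ≤ a ^ j := by
    intro σ _
    rw [abs_mul]
    have h2 : |((Equiv.Perm.sign σ : ℤ) : ℤ)| = 1 := by
      rcases Int.units_eq_one_or (Equiv.Perm.sign σ) with h | h <;> rw [h] <;> simp
    rw [h2, one_mul, Finset.abs_prod]
    refine (Finset.prod_le_prod (fun i _ => abs_nonneg _) (fun i _ => hM _ _)).trans ?_
    rw [Finset.prod_const, Finset.card_univ, Fintype.card_fin]
  refine (Finset.sum_le_card_nsmul _ _ _ h1).trans ?_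
  rw [Finset.card_univ, Fintype.card_perm, Fintype.card_fin, nsmul_eq_mul]

end Pool.Agent.PIT.RWA
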