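import Mathlib
import Pool.Agent.Work.RW.Prog

/-!
# Modular evaluation of branching programs given by lists of strings
-/

set_option autoImplicit false

namespace Pool.Agent.PIT.RWA

open Function Matrix Pool.Agent.RW Pool.Agent.PIT.BR

/-- A triple of a program in list form. -/
abbrev LLet : Type := Name × List (List Bool)

variable {r : ℕ}

/-- The list form of a program. -/
def toL (p : BP r) : List LLet :=
  p.map (fun l => (l.1, (ents l.2.1).map (fun c => c.1 :: c.2) ++
    (ents l.2.2).map (fun c => c.1 :: c.2)))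

/-! ### Indices -/

theorem flatMap_getElem? {α β : Type} (l : List α) (h : α → List β) (m : ℕ)
    (hm : ∀ a ∈ l, (h a).length = m) : ∀ (i j : ℕ), j < m →
      (l.flatMap h)[i * m + j]? = l[i]?.bind (fun a => (h a)[j]?) := by
  induction l with
  | nil => intro i j _; simp
  | cons a l ih =>
    intro i j hj
    have ha := hm a List.mem_cons_self
    rw [List.flatMap_cons]
    cases i with
    | zero =>
      rw [Nat.zero_mul, Nat.zero_add, List.getElem?_append_left (by omega)]
      simp
    | succ i =>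
      rw [List.getElem?_append_right (by rw [ha, Nat.succ_mul]; omega), ha]
      have : (i + 1) * m + j - m = i * m + j := by rw [Nat.succ_mul]; omega
      rw [this, ih (fun b hb => hm b (List.mem_cons_of_mem _ hb)) i j hj]
      simp

theorem ents_getElem? (A : BMat r) (i j : Fin r) :
    (ents A)[(i : ℕ) * r + (j : ℕ)]? = some (A i j) := by
  unfold ents
  rw [flatMap_getElem? _ _ r (fun a _ => by simp) i j j.2]
  simp

theorem length_ents (A : BMat r) : (ents A).length = r * r := by
  unfold ents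
  rw [List.length_flatMap]
  simp

theorem getD_range_map {β : Type} (n : ℕ) (f : ℕ → β) (d : β) {m : ℕ} (hm : m < n) :
    ((List.range n).map f).getD m d = f m := by
  rw [List.getD_eq_getElem?_getD, List.getElem?_map, List.getElem?_range hm]
  rfl

theorem idx_lt (i j : Fin r) : (i : ℕ) * r + (j : ℕ) < r * r := by
  have h1 := i.2
  have h2 := j.2
  have : (i : ℕ) * r + r ≤ r * r := by
    rw [← Nat.succ_mul]
    exact Nat.mul_le_mul_right _ h1
  omega

theorem idx_div (i j : Fin r) : ((i : ℕ) * r + (j : ℕ)) / r = i := by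
  have h2 := j.2
  rw [mul_comm, Nat.mul_add_div (by omega), Nat.div_eq_of_lt h2, add_zero]

theorem idx_mod (i j : Fin r) : ((i : ℕ) * r + (j : ℕ)) % r = j := by
  rw [mul_comm, Nat.mul_add_mod, Nat.mod_eq_of_lt j.2]

theorem sum_map_range {β : Type} [AddCommMonoid β] (n : ℕ) (f : ℕ → β) :
    ((List.range n).map f).sum = ∑ x : Fin n, f x := by
  induction n with
  | zero => simp
  | succ n ih =>
    rw [List.range_succ, List.map_append, List.sum_append, ih, Fin.sum_univ_castSucc]
    simp

/-! ### Evaluation -/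

/-- The value of a string modulo `q`. -/
def ivm (q : ℕ) (s : List Bool) : ℕ :=
  if s.headD false then (q - nmod q s.tail) % q else nmod q s.tail

theorem ivm_cast {q : ℕ} [NeZero q] (c : BInt) :
    ((ivm q (c.1 :: c.2) : ℕ) : ZMod q) = ((bval c : ℤ) : ZMod q) := by
  unfold ivm bval
  rw [List.headD_cons, List.tail_cons, nmod_eq]
  have hlt : natOf c.2 % q ≤ q := (Nat.mod_lt _ (NeZero.pos q)).le
  cases c.1
  · simp
  · simp only [if_true]
    rw [ZMod.natCast_mod, Nat.cast_sub hlt, ZMod.natCast_self, ZMod.natCast_mod]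
    push_cast
    ring

/-- An entry of the matrix of a triple modulo `q`. -/
def ent (r q : ℕ) (env : Env) (l : LLet) (m : ℕ) : ℕ :=
  (ivm q (l.2.getD m []) + ivm q (l.2.getD (r * r + m) []) * look env l.1) % q

/-- Multiplication by the matrix of a triple. -/
def mstep (r q : ℕ) (env : Env) (M : List ℕ) (l : LLet) : List ℕ :=
  (List.range (r * r)).map (fun m => (((List.range r).map
    (fun x => M.getD ((m / r) * r + x) 0 * ent r q env l (x * r + m % r))).sum) % q)

/-- The identity matrix. -/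
def identL (r : ℕ) : List ℕ := (List.range (r * r)).map (fun m => if m / r = m % r then 1 else 0)

/-- The product of the matrices of a list of triples modulo `q`. -/
def evalP (r q : ℕ) (env : Env) (P : List LLet) : List ℕ := P.foldl (mstep r q env) (identL r)

/-- `M` is a list of the entries of `A`. -/
def RelM (q : ℕ) (M : List ℕ) (A : Matrix (Fin r) (Fin r) (ZMod q)) : Prop :=
  ∀ i j : Fin r, ((M.getD ((i : ℕ) * r + (j : ℕ)) 0 : ℕ) : ZMod q) = A i j

theorem relM_ident (q : ℕ) : RelM (r := r) q (identL r) 1 := by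
  intro i j
  unfold identL
  rw [getD_range_map _ _ _ (idx_lt i j), idx_div, idx_mod, Matrix.one_apply]
  by_cases h : i = j
  · subst h; simp
  · have : (i : ℕ) ≠ j := fun e => h (Fin.ext e)
    simp [h, this]

/-- The matrix of a triple modulo `q`. -/
def qmat (q : ℕ) (g : Name → ℤ) (l : Name × (BMat r × BMat r)) :
    Matrix (Fin r) (Fin r) (ZMod q) :=
  Matrix.of (fun i j => ((bval (l.2.1 i j) + bval (l.2.2 i j) * g l.1 : ℤ) : ZMod q))

theorem ent_cast {q : ℕ} [NeZero q] (env : Env) (l : Name × (BMat r × BMat r)) (i j : Fin r) :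
    ((ent r q env (l.1, (ents l.2.1).map (fun c => c.1 :: c.2) ++
      (ents l.2.2).map (fun c => c.1 :: c.2)) ((i : ℕ) * r + (j : ℕ)) : ℕ) : ZMod q) =
      qmat q (fun v => (look env v : ℤ)) l i j := by
  unfold ent qmat
  have h1 : ((ents l.2.1).map (fun c : BInt => c.1 :: c.2) ++
      (ents l.2.2).map (fun c : BInt => c.1 :: c.2)).getD ((i : ℕ) * r + (j : ℕ)) [] =
      (l.2.1 i j).1 :: (l.2.1 i j).2 := by
    rw [List.getD_eq_getElem?_getD, List.getElem?_append_left (by
      rw [List.length_map, length_ents]; exact idx_lt i j), List.getElem?_map, ents_getElem?]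
    rfl
  have h2 : ((ents l.2.1).map (fun c : BInt => c.1 :: c.2) ++
      (ents l.2.2).map (fun c : BInt => c.1 :: c.2)).getD (r * r + ((i : ℕ) * r + (j : ℕ))) [] =
      (l.2.2 i j).1 :: (l.2.2 i j).2 := by
    rw [List.getD_eq_getElem?_getD, List.getElem?_append_right (by
      rw [List.length_map, length_ents]; omega), List.length_map, length_ents,
      Nat.add_sub_cancel_left, List.getElem?_map, ents_getElem?]
    rfl
  rw [h1, h2, ZMod.natCast_mod, Matrix.of_apply, Nat.cast_add, Nat.cast_mul, ivm_cast, ivm_cast]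
  push_cast
  rfl

theorem relM_step {q : ℕ} [NeZero q] (env : Env) {M : List ℕ}
    {A : Matrix (Fin r) (Fin r) (ZMod q)} (h : RelM q M A) (l : Name × (BMat r × BMat r)) :
    RelM q (mstep r q env M (l.1, (ents l.2.1).map (fun c => c.1 :: c.2) ++
      (ents l.2.2).map (fun c => c.1 :: c.2))) (A * qmat q (fun v => (look env v : ℤ)) l) := by
  intro i j
  unfold mstep
  rw [getD_range_map _ _ _ (idx_lt i j), idx_div, idx_mod, ZMod.natCast_mod, Matrix.mul_apply]
  rw [Nat.cast_list_sum, List.map_map, sum_map_range]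
  refine Finset.sum_congr rfl (fun x _ => ?_)
  rw [Function.comp_apply, Nat.cast_mul, h i x, ent_cast]

theorem relM_evalP {q : ℕ} [NeZero q] (env : Env) (p : BP r) :
    RelM q (evalP r q env (toL p)) ((p.map (qmat q (fun v => (look env v : ℤ)))).prod) := by
  have key : ∀ (p : BP r) (M : List ℕ) (A : Matrix (Fin r) (Fin r) (ZMod q)), RelM q M A →
      RelM q ((toL p).foldl (mstep r q env) M)
        (A * (p.map (qmat q (fun v => (look env v : ℤ)))).prod) := by
    intro p
    induction p with
    | nil =>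
      intro M A h
      rw [List.map_nil, List.prod_nil, mul_one]
      exact h
    | cons l p ih =>
      intro M A h
      rw [List.map_cons, List.prod_cons, ← mul_assoc]
      exact ih _ _ (relM_step env h l)
  have h := key p _ _ (relM_ident q)
  rw [one_mul] at h
  exact h

theorem qmat_prod (q : ℕ) (g : Name → ℤ) (p : BP r) :
    (p.map (qmat q g)).prod = (imat g p).map (Int.cast : ℤ → ZMod q) := by
  induction p with
  | nil =>
    rw [imat_nil]
    exact (Matrix.map_one (Int.cast : ℤ → ZMod q) (by simp) (by simp)).symm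
  | cons l p ih =>
    rw [List.map_cons, List.prod_cons, ih, imat_cons]
    have h2 := Matrix.map_mul (L := Matrix.of (fun i j => bval (l.2.1 i j) +
      bval (l.2.2 i j) * g l.1)) (M := imat g p) (f := Int.castRingHom (ZMod q))
    rw [show (⇑(Int.castRingHom (ZMod q)) : ℤ → ZMod q) = Int.cast from rfl] at h2
    rw [h2]
    congr 1

/-- A minor modulo `q`. -/
noncomputable def minT (r q : ℕ) (M : List ℕ) {j : ℕ} (e f : Fin j → Fin r) : ℕ :=
  (((Finset.univ : Finset (Equiv.Perm (Fin j))).toList.map (fun σ =>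
    (if Equiv.Perm.sign σ = 1 then 1 else q - 1) *
      ((List.finRange j).map (fun i => M.getD ((e (σ i) : ℕ) * r + (f i : ℕ)) 0)).prod)).sum) % q

theorem minT_cast {q : ℕ} [NeZero q] {M : List ℕ} {A : Matrix (Fin r) (Fin r) (ZMod q)}
    (h : RelM q M A) {j : ℕ} (e f : Fin j → Fin r) :
    ((minT r q M e f : ℕ) : ZMod q) = (A.submatrix e f).det := by
  unfold minT
  rw [ZMod.natCast_mod, Nat.cast_list_sum, List.map_map, Finset.sum_map_toList,
    Matrix.det_apply']
  refine Finset.sum_congr rfl (fun σ _ => ?_)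
  rw [Function.comp_apply, Nat.cast_mul, Nat.cast_list_prod, List.map_map]
  congr 1
  · have h1 : ((q - 1 : ℕ) : ZMod q) = -1 := by
      rw [Nat.cast_sub (NeZero.pos q), ZMod.natCast_self]
      simp
    rcases Int.units_eq_one_or (Equiv.Perm.sign σ) with hs | hs
    · rw [hs]; simp
    · have hne : ((-1 : ℤˣ) = 1) = False := by simp
      rw [hs]
      simp only [hne, if_false, h1]
      simp
  · have h2 : (List.finRange j).map (Nat.cast ∘ fun i =>
        M.getD ((e (σ i) : ℕ) * r + (f i : ℕ)) 0) =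
        (List.finRange j).map (fun i => (A.submatrix e f) (σ i) i) := by
      refine List.map_congr_left (fun i _ => ?_)
      rw [Function.comp_apply, h]
      rfl
    rw [h2, ← Fin.prod_univ_def]

/-! ### Nonzero tests -/

/-- Some `q ≤ b` shows that the minor is nonzero. -/
noncomputable def nzT (r b : ℕ) (env : Env) (P : List LLet) {j : ℕ} (e f : Fin j → Fin r) : Bool :=
  (List.range b).any (fun q => !decide (minT r (q + 1) (evalP r (q + 1) env P) e f = 0))

theorem minT_evalP_ne_zero {q : ℕ} [NeZero q] (env : Env) (p : BP r) {j : ℕ}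
    (e f : Fin j → Fin r) : minT r q (evalP r q env (toL p)) e f ≠ 0 ↔
      ((imin (fun v => (look env v : ℤ)) p e f : ℤ) : ZMod q) ≠ 0 := by
  have h1 := minT_cast (relM_evalP (q := q) env p) e f
  rw [qmat_prod, show ((imat (fun v => (look env v : ℤ)) p).map
    (Int.cast : ℤ → ZMod q)).submatrix e f =
    ((imat (fun v => (look env v : ℤ)) p).submatrix e f).map (Int.castRingHom (ZMod q)) from rfl]
    at h1
  have h2 := (RingHom.map_det (Int.castRingHom (ZMod q))
    ((imat (fun v => (look env v : ℤ)) p).submatrix e f)).symm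
  rw [RingHom.mapMatrix_apply] at h2
  rw [h2] at h1
  have hlt : minT r q (evalP r q env (toL p)) e f < q := Nat.mod_lt _ (NeZero.pos q)
  have h3 : ((minT r q (evalP r q env (toL p)) e f : ℕ) : ZMod q) = 0 ↔
      minT r q (evalP r q env (toL p)) e f = 0 := by
    constructor
    · intro h
      rw [ZMod.natCast_eq_zero_iff] at h
      exact Nat.eq_zero_of_dvd_of_lt h hlt
    · intro h
      rw [h, Nat.cast_zero]
  unfold imin
  rw [not_iff_not, ← h3, h1]
  rfl

theorem nzT_sound {b : ℕ} {env : Env} {p : BP r} {j : ℕ} {e f : Fin j → Fin r}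
    (h : nzT r b env (toL p) e f = true) : imin (fun v => (look env v : ℤ)) p e f ≠ 0 := by
  unfold nzT at h
  rw [List.any_eq_true] at h
  obtain ⟨q, _, hq⟩ := h
  have h1 : minT r (q + 1) (evalP r (q + 1) env (toL p)) e f ≠ 0 := by simpa using hq
  rw [minT_evalP_ne_zero] at h1
  intro h0
  rw [h0] at h1
  simp at h1

/-- The size of a list of triples. -/
def szP (P : List LLet) : ℕ := (P.map (fun l => (l.2.map List.length).sum + 1)).sum

theorem length_le_szP (P : List LLet) : P.length ≤ szP P := by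
  unfold szP
  induction P with
  | nil => simp
  | cons l P ih =>
    rw [List.map_cons, List.sum_cons, List.length_cons]
    omega

theorem string_le_szP {P : List LLet} {l : LLet} (hl : l ∈ P) {s : List Bool} (hs : s ∈ l.2) :
    s.length ≤ szP P := by
  unfold szP
  have h1 : (l.2.map List.length).sum + 1 ≤
      (P.map (fun l => (l.2.map List.length).sum + 1)).sum :=
    List.single_le_sum (by intro x _; exact Nat.zero_le _) _
      (List.mem_map.2 ⟨l, hl, rfl⟩)
  have h2 : s.length ≤ (l.2.map List.length).sum :=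
    List.single_le_sum (by intro x _; exact Nat.zero_le _) _ (List.mem_map.2 ⟨s, hs, rfl⟩)
  omega

theorem abs_bval_le {c : BInt} {S : ℕ} (h : (c.1 :: c.2 : List Bool).length ≤ S) :
    |bval c| ≤ 2 ^ S := by
  have h1 : (natOf c.2 : ℤ) ≤ 2 ^ S := by
    have h2 := (natOf_lt c.2).le
    have h3 : 2 ^ c.2.length ≤ 2 ^ S := Nat.pow_le_pow_right (by norm_num) (by
      rw [List.length_cons] at h
      omega)
    exact_mod_cast h2.trans h3
  unfold bval
  split_ifs
  · rw [abs_neg, abs_of_nonneg (by positivity)]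
    exact h1
  · rw [abs_of_nonneg (by positivity)]
    exact h1

theorem mem_ents (A : BMat r) (i j : Fin r) : A i j ∈ ents A :=
  List.mem_of_getElem? (ents_getElem? A i j)

/-- A bound for the modulus. -/
def bndM (r S B : ℕ) : ℕ := B + (r + 1) * ((S + 2) * (S + 2))

theorem pow_bound {r S B : ℕ} : r.factorial * ((r * (2 ^ S * (1 + B))) ^ S + 2) ^ r ≤
    (bndM r S B + 2) ^ bndM r S B := by
  set X := bndM r S B + 2 with hX
  have hX2 : 2 ≤ X := by omega
  have hX1 : 1 ≤ X := by omega
  have hr : r ≤ X := by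
    rw [hX]
    unfold bndM
    have h1 : 0 < (S + 2) * (S + 2) := Nat.mul_pos (by omega) (by omega)
    have h2 : r + 1 ≤ (r + 1) * ((S + 2) * (S + 2)) := Nat.le_mul_of_pos_right _ h1
    omega
  have hB : 1 + B ≤ X := by
    rw [hX]
    unfold bndM
    omega
  have h1 : (r * (2 ^ S * (1 + B))) ^ S ≤ X ^ (S * (S + 2)) := by
    calc (r * (2 ^ S * (1 + B))) ^ S ≤ (X * (X ^ S * X)) ^ S := by
          refine Nat.pow_le_pow_left ?_ S
          exact Nat.mul_le_mul hr (Nat.mul_le_mul (Nat.pow_le_pow_left hX2 S) hB)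
      _ = X ^ (S * (S + 2)) := by
          rw [show X * (X ^ S * X) = X ^ (S + 2) by ring, ← pow_mul, mul_comm]
  have h2 : (r * (2 ^ S * (1 + B))) ^ S + 2 ≤ X ^ (S * (S + 2) + 2) := by
    have h3 : 1 ≤ X ^ (S * (S + 2)) := Nat.one_le_pow _ _ (by omega)
    have h4 : X ^ (S * (S + 2) + 2) = X ^ (S * (S + 2)) * (X * X) := by ring
    rw [h4]
    have h5 : 4 ≤ X * X := by nlinarith
    calc (r * (2 ^ S * (1 + B))) ^ S + 2 ≤ X ^ (S * (S + 2)) + 2 := by omega
      _ ≤ X ^ (S * (S + 2)) * 4 := by omega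
      _ ≤ X ^ (S * (S + 2)) * (X * X) := Nat.mul_le_mul_left _ h5
  calc r.factorial * ((r * (2 ^ S * (1 + B))) ^ S + 2) ^ r
      ≤ X ^ r * (X ^ (S * (S + 2) + 2)) ^ r := by
        refine Nat.mul_le_mul ?_ (Nat.pow_le_pow_left h2 r)
        exact (Nat.factorial_le_pow r).trans (Nat.pow_le_pow_left hr r)
    _ = X ^ (r * (S * (S + 2) + 3)) := by
        rw [← pow_mul, ← pow_add]
        congr 1
        ring
    _ ≤ X ^ bndM r S B := by
        refine Nat.pow_le_pow_right (by omega) ?_
        unfold bndM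
        nlinarith

theorem imin_bound {B S : ℕ} {g : Name → ℕ} (hg : ∀ v, g v ≤ B) {p : BP r}
    (hS : szP (toL p) ≤ S) {j : ℕ} (hj : j ≤ r) (e f : Fin j → Fin r) :
    (imin (fun v => (g v : ℤ)) p e f).natAbs ≤ (bndM r S B + 2) ^ bndM r S B := by
  have hlen : p.length ≤ S := by
    have h1 := length_le_szP (toL p)
    unfold toL at h1
    rw [List.length_map] at h1
    exact h1.trans hS
  set E : ℤ := 2 ^ S * (1 + B) with hE
  have hE1 : 1 ≤ E := by
    rw [hE]
    have : (1 : ℤ) ≤ 2 ^ S := one_le_pow₀ (by norm_num)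
    nlinarith
  have hent : ∀ l ∈ p, ∀ i j, |bval (l.2.1 i j) + bval (l.2.2 i j) * (g l.1 : ℤ)| ≤ E := by
    intro l hl i j
    have hl' : (l.1, (ents l.2.1).map (fun c => c.1 :: c.2) ++
        (ents l.2.2).map (fun c => c.1 :: c.2)) ∈ toL p := List.mem_map.2 ⟨l, hl, rfl⟩
    have h1 : |bval (l.2.1 i j)| ≤ 2 ^ S := abs_bval_le ((string_le_szP hl'
      (List.mem_append_left _ (List.mem_map.2 ⟨_, mem_ents l.2.1 i j, rfl⟩))).trans hS)
    have h2 : |bval (l.2.2 i j)| ≤ 2 ^ S := abs_bval_le ((string_le_szP hl'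
      (List.mem_append_right _ (List.mem_map.2 ⟨_, mem_ents l.2.2 i j, rfl⟩))).trans hS)
    have h3 : |(g l.1 : ℤ)| ≤ B := by
      rw [abs_of_nonneg (by positivity)]
      exact_mod_cast hg l.1
    refine (abs_add_le _ _).trans ?_
    rw [abs_mul, hE, mul_add, mul_one]
    exact add_le_add h1 (mul_le_mul h2 h3 (abs_nonneg _) (by positivity))
  have h1 := abs_imat_le (fun v => (g v : ℤ)) hE1 p hent
  have h2 : ∀ i j, |imat (fun v => (g v : ℤ)) p i j| ≤ ((r : ℤ) * E) ^ S + 2 := by
    intro i j
    refine (h1 i j).trans ?_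
    have h3 : ((r : ℤ) * E) ^ p.length ≤ ((r : ℤ) * E) ^ S + 1 := by
      rcases Nat.eq_zero_or_pos r with h0 | h0
      · exact absurd i.2 (by omega)
      · have h4 : (1 : ℤ) ≤ (r : ℤ) * E := by
          have : (1 : ℤ) ≤ r := by exact_mod_cast h0
          nlinarith
        have := pow_le_pow_right₀ h4 hlen
        omega
    omega
  have h3 : |imin (fun v => (g v : ℤ)) p e f| ≤
      (j.factorial : ℤ) * (((r : ℤ) * E) ^ S + 2) ^ j := abs_det_le (fun i' j' => h2 _ _)
  have h4 : (j.factorial : ℤ) * (((r : ℤ) * E) ^ S + 2) ^ j ≤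
      (r.factorial : ℤ) * (((r : ℤ) * E) ^ S + 2) ^ r := by
    have h5 : (1 : ℤ) ≤ ((r : ℤ) * E) ^ S + 2 := by
      have : (0 : ℤ) ≤ ((r : ℤ) * E) ^ S := by positivity
      omega
    refine mul_le_mul ?_ (pow_le_pow_right₀ h5 hj) (by positivity) (by positivity)
    exact_mod_cast Nat.factorial_le hj
  have h5 := pow_bound (r := r) (S := S) (B := B)
  have h6 : ((r.factorial * ((r * (2 ^ S * (1 + B))) ^ S + 2) ^ r : ℕ) : ℤ) =
      (r.factorial : ℤ) * (((r : ℤ) * E) ^ S + 2) ^ r := by
    rw [hE]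
    push_cast
    ring
  zify
  rw [← h6] at h4
  refine (h3.trans h4).trans ?_
  exact_mod_cast h5

/-- Correctness of the nonzero test. -/
theorem nzT_iff {B S b : ℕ} {env : Env} (hg : ∀ v, look env v ≤ B) {p : BP r}
    (hS : szP (toL p) ≤ S) (hb : (bndM r S B + 5) ^ 4 ≤ b) {j : ℕ} (hj : j ≤ r)
    (e f : Fin j → Fin r) : nzT r b env (toL p) e f = true ↔
      imin (fun v => (look env v : ℤ)) p e f ≠ 0 := by
  refine ⟨nzT_sound, fun hne => ?_⟩
  have h2 := imin_bound hg hS hj e f
  obtain ⟨q, hq, hq1, hq2, hq3⟩ := exists_good_prime (Int.natAbs_ne_zero.2 hne) h2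
  obtain ⟨s, rfl⟩ : ∃ s, q = s + 1 := ⟨q - 1, (Nat.sub_add_cancel hq.pos).symm⟩
  unfold nzT
  rw [List.any_eq_true]
  refine ⟨s, List.mem_range.2 (by omega), ?_⟩
  have h4 : minT r (s + 1) (evalP r (s + 1) env (toL p)) e f ≠ 0 := by
    rw [minT_evalP_ne_zero]
    intro h5
    rw [ZMod.intCast_zmod_eq_zero_iff_dvd] at h5
    exact hq3 (Int.natCast_dvd.1 h5)
  simpa using h4

end Pool.Agent.PIT.RWA
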