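import Mathlib
import Pool.Agent.Work.RW.Eval

/-!
# The local search algorithm for branching programs
-/

set_option autoImplicit false

namespace Pool.Agent.PIT.RWA

open Function Matrix Pool.Agent.RW Pool.Agent.PIT.BR

variable {r : ℕ}

/-! ### The class of programs -/

theorem IdentBP.ofInfix {k c : ℕ} {p p' : BP r} (h : p ∈ IdentBP r k c) (hp : p' <:+: p) :
    p' ∈ IdentBP r k c := by
  obtain ⟨g, φ, h1, h2, rfl⟩ := h
  obtain ⟨s, t, hst⟩ := hp
  rw [List.append_assoc] at hst
  obtain ⟨g1, g2, rfl, e1, e2⟩ := List.map_eq_append_iff.1 hst.symm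
  obtain ⟨g3, g4, rfl, e3, e4⟩ := List.map_eq_append_iff.1 e2
  refine ⟨g3, φ, ?_, fun v => ?_, e3.symm⟩
  · intro p1 p2 h12
    refine (Set.encard_le_encard ?_).trans (h1 (g1 ++ p1) (p2 ++ g4) (by rw [h12]; simp))
    rintro u ⟨a1, a2⟩
    rw [List.map_append, List.map_append]
    exact ⟨List.mem_append_right _ a1, List.mem_append_left _ a2⟩
  · refine (Set.encard_le_encard ?_).trans (h2 v)
    rintro u ⟨a1, a2⟩
    refine ⟨a1, ?_⟩
    rw [List.map_append, List.map_append]
    exact List.mem_append_right _ (List.mem_append_left _ a2)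

/-- Renaming of the labels of a word. -/
def renW (φ : Name → Name) (w : Word ℚ Name r) : Word ℚ Name r := w.map (fun l => (φ l.1, l.2))

theorem wval_renW (φ : Name → Name) (q : Name → ℚ) (w : Word ℚ Name r) :
    RW.wval id q (renW φ w) = RW.wval φ q w := by
  unfold RW.wval renW
  rw [List.map_map]
  rfl

theorem toW_map (φ : Name → Name) (g : BP r) :
    toW (g.map (fun l => (φ l.1, l.2))) = renW φ (toW g) := by
  unfold toW renW
  rw [List.map_map, List.map_map]
  rfl

/-- The local search property. -/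
def LSB (r k c w : ℕ) : Prop :=
  ∀ (p : BP r), p ∈ IdentBP r k c → ∀ (A : Set Name) (ρ : Name → ℚ),
    (∀ y, y <:+: (toW p).tail → GoodW id A ρ y) → ∀ (j : ℕ), j ≤ r → ∀ (e f : Fin j → Fin r),
    (∃ q : Name → ℚ, (∀ i, i ∉ A → q i = ρ i) ∧ mnr id e f (toW p) q ≠ 0) →
    ∃ (q : Name → ℚ) (D : Finset Name), D.card ≤ w ∧ (∀ i ∈ D, i ∈ A) ∧
      (∀ i, i ∉ D → q i = ρ i) ∧ mnr id e f (toW p) q ≠ 0

theorem exists_lsb (r k c : ℕ) : ∃ w, LSB r k c w := by
  refine ⟨wL r c k, fun p hp A ρ hgood j hj e f hex => ?_⟩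
  obtain ⟨g, φ, h1, h2, rfl⟩ := hp
  have hm : ∀ q : Name → ℚ, mnr id e f (toW (g.map (fun l => (φ l.1, l.2)))) q =
      mnr φ e f (toW g) q := by
    intro q
    unfold mnr
    rw [toW_map, wval_renW]
  simp only [hm] at hex ⊢
  refine local_word k c φ (toW g) A ρ (fun v _ => ?_) ?_ (fun y hy => ?_) hj e f hex
  · refine (Set.encard_le_encard ?_).trans (h2 v)
    rintro u ⟨a1, l, a2, a3⟩
    refine ⟨a1, ?_⟩
    unfold toW at a2
    rw [List.mem_map] at a2
    obtain ⟨l', a4, rfl⟩ := a2
    exact List.mem_map.2 ⟨l', a4, a3⟩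
  · intro w1 w2 h12
    unfold toW at h12
    obtain ⟨g1, g2, rfl, e1, e2⟩ := List.map_eq_append_iff.1 h12
    refine (Set.encard_le_encard ?_).trans (h1 g1 g2 rfl)
    rintro u ⟨⟨l, a1, a2⟩, ⟨l', a3, a4⟩⟩
    rw [← e1, List.mem_map] at a1
    rw [← e2, List.mem_map] at a3
    obtain ⟨x, b1, rfl⟩ := a1
    obtain ⟨x', b2, rfl⟩ := a3
    exact ⟨List.mem_map.2 ⟨x, b1, a2⟩, List.mem_map.2 ⟨x', b2, a4⟩⟩
  · have h3 : renW φ y <:+: (toW (g.map (fun l => (φ l.1, l.2)))).tail := by
      rw [toW_map]
      unfold renW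
      rw [← List.map_tail]
      exact hy.map _
    intro j' hj' e' f'
    have h4 := hgood _ h3 j' hj' e' f'
    have h5 : ∀ q : Name → ℚ, mnr id e' f' (renW φ y) q = mnr φ e' f' y q := by
      intro q
      unfold mnr
      rw [wval_renW]
    simp only [h5] at h4
    exact h4

/-! ### Tests -/

/-- Indices of minors. -/
abbrev Mu (r : ℕ) : Type := Σ j : Fin (r + 1), (Fin j → Fin r) × (Fin j → Fin r)

/-- All indices of minors. -/
noncomputable def mins (r : ℕ) : List (Mu r) := (Finset.univ : Finset (Mu r)).toList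

/-- All tests. -/
noncomputable def tests (r m : ℕ) : List (ℕ × (ℕ × Mu r)) :=
  (List.range (m + 1)).flatMap (fun a => (List.range (m + 1)).flatMap (fun b =>
    (mins r).map (fun μ => (a, (b, μ)))))

theorem mem_tests {m a b : ℕ} (ha : a ≤ m) (hb : b ≤ m) (μ : Mu r) :
    (a, (b, μ)) ∈ tests r m := by
  unfold tests mins
  rw [List.mem_flatMap]
  refine ⟨a, List.mem_range.2 (by omega), ?_⟩
  rw [List.mem_flatMap]
  exact ⟨b, List.mem_range.2 (by omega), List.mem_map.2 ⟨μ, by simp, rfl⟩⟩

theorem length_tests (r m : ℕ) :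
    (tests r m).length = (m + 1) * ((m + 1) * (mins r).length) := by
  unfold tests
  simp [List.length_flatMap]

/-- The segment of a list. -/
def lseg {α : Type} (P : List α) (a b : ℕ) : List α := (P.drop a).take (b - a)

/-- A test. -/
noncomputable def passT (r b : ℕ) (P : List LLet) (env : Env) (t : ℕ × (ℕ × Mu r)) : Bool :=
  nzT r b env (lseg P t.1 t.2.1) t.2.2.2.1 t.2.2.2.2

theorem lseg_toL (p : BP r) (a b : ℕ) : lseg (toL p) a b = toL (lseg p a b) := by
  unfold toL lseg
  rw [List.map_take, List.map_drop]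

theorem lseg_infix {α : Type} (P : List α) (a b : ℕ) : lseg P a b <:+: P :=
  ((List.take_prefix _ _).isInfix).trans (List.drop_suffix _ _).isInfix

theorem szP_append (P Q : List LLet) : szP (P ++ Q) = szP P + szP Q := by
  unfold szP
  rw [List.map_append, List.sum_append]

theorem szP_infix {p p' : BP r} (h : p' <:+: p) : szP (toL p') ≤ szP (toL p) := by
  obtain ⟨s, t, rfl⟩ := h
  have h1 : toL (s ++ p' ++ t) = toL s ++ toL p' ++ toL t := by
    unfold toL
    rw [List.map_append, List.map_append]
  rw [h1, szP_append, szP_append]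
  omega

theorem length_infix {p p' : BP r} (h : p' <:+: p) : p'.length ≤ p.length := h.length_le

theorem infix_eq_lseg {p y : BP r} (h : y <:+: p) :
    ∃ a b, a ≤ p.length ∧ b ≤ p.length ∧ y = lseg p a b := by
  obtain ⟨s, t, hst⟩ := h
  refine ⟨s.length, s.length + y.length, ?_, ?_, ?_⟩
  · rw [← hst]; simp only [List.length_append]; omega
  · rw [← hst]; simp only [List.length_append]; omega
  · unfold lseg
    rw [← hst, List.append_assoc, List.drop_left', Nat.add_sub_cancel_left, List.take_left']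
    · rfl
    · rfl

/-- The function belonging to a test. -/
noncomputable def tfun (p : BP r) (t : ℕ × (ℕ × Mu r)) : (Name → ℚ) → ℚ :=
  mnr id t.2.2.2.1 t.2.2.2.2 (toW (lseg p t.1 t.2.1))

theorem passT_iff {B S b : ℕ} {env : Env} (hg : ∀ v, look env v ≤ B) {p : BP r}
    (hS : szP (toL p) ≤ S) (hb : (bndM r S B + 5) ^ 4 ≤ b) (t : ℕ × (ℕ × Mu r)) :
    passT r b (toL p) env t = true ↔ tfun p t (fun v => (look env v : ℚ)) ≠ 0 := by
  unfold passT tfun
  rw [lseg_toL, nzT_iff hg ((szP_infix (lseg_infix p _ _)).trans hS) hb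
    (Nat.lt_succ_iff.1 t.2.2.1.2)]
  have h1 := mnr_toW (fun v => (look env v : ℤ)) (lseg p t.1 t.2.1) t.2.2.2.1 t.2.2.2.2
  have h2 : (fun v => (((look env v : ℕ) : ℤ) : ℚ)) = fun v => ((look env v : ℕ) : ℚ) := by
    funext v
    push_cast
    rfl
  rw [h2] at h1
  rw [h1]
  exact Int.cast_ne_zero.symm

theorem tfun_cp (p : BP r) (t : ℕ × (ℕ × Mu r)) : CP (r * p.length) (tfun p t) := by
  refine mnr_cp _ _ _ (Nat.mul_le_mul (Nat.lt_succ_iff.1 t.2.2.1.2) (length_infix (lseg_infix p _ _)))

/-- **At a local maximum all minors of all segments are good.** -/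
theorem good_of_max {k c w : ℕ} (hw : LSB r k c w) {p : BP r} (hp : p ∈ IdentBP r k c)
    {vs : List Name} {B b : ℕ} (hB : ((tests r p.length).length + 1) * (r * p.length) ≤ B)
    (hb : (bndM r (szP (toL p)) B + 5) ^ 4 ≤ b) {env : Env} (henv : ∀ v, look env v ≤ B)
    (hmax : ∀ x ∈ cands vs B w env,
      betterG (tests r p.length) (passT r b (toL p)) env x = false) :
    ∀ (n : ℕ) (y : BP r), y <:+: p → y.length ≤ n →
      GoodW id {v | v ∈ vs} (fun v => (look env v : ℚ)) (toW y) := by
  intro n
  induction n with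
  | zero =>
    intro y _ hlen j hj e f
    have hy : y = [] := List.length_eq_zero_iff.1 (by omega)
    subst hy
    by_cases h0 : mnr id e f (toW ([] : BP r)) (fun v => (look env v : ℚ)) = 0
    · left
      intro q _
      rw [← h0]
      rfl
    · exact Or.inr h0
  | succ n ih =>
    intro y hy hlen j hj e f
    by_contra hbad
    rw [not_or, not_not] at hbad
    obtain ⟨h1, h2⟩ := hbad
    push Not at h1
    obtain ⟨q0, hq0, hq0'⟩ := h1
    obtain ⟨q, D, hD1, hD2, hD3, hD4⟩ := hw y (IdentBP.ofInfix hp hy) {v | v ∈ vs}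
      (fun v => (look env v : ℚ)) (fun z hz => by
        have h3 : (toW y).tail = toW y.tail := by
          unfold toW
          rw [List.map_tail]
        rw [h3] at hz
        obtain ⟨s, t, hst⟩ := hz
        rw [List.append_assoc] at hst
        unfold toW at hst
        obtain ⟨g1, g2, hg, e1, e2⟩ := List.map_eq_append_iff.1 hst.symm
        obtain ⟨g3, g4, hg2, e3, e4⟩ := List.map_eq_append_iff.1 e2
        have h4 : z = toW g3 := e3.symm
        have h5 : g3 <:+: y.tail := ⟨g1, g4, by rw [hg, hg2, List.append_assoc]⟩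
        rw [h4]
        refine ih g3 ((h5.trans (List.tail_suffix y).isInfix).trans hy) ?_
        have := h5.length_le
        rw [List.length_tail] at this
        omega) j hj e f ⟨q0, hq0, hq0'⟩
    obtain ⟨a, b', ha, hb', hyseg⟩ := infix_eq_lseg hy
    set t0 : ℕ × (ℕ × Mu r) := (a, (b', ⟨⟨j, Nat.lt_succ_iff.2 hj⟩, (e, f)⟩)) with ht0
    have ht0m : t0 ∈ tests r p.length := mem_tests ha hb' _
    have ht0f : tfun p t0 = mnr id e f (toW y) := by
      unfold tfun
      rw [hyseg]
    set J := (tests r p.length).filter (fun t => passT r b (toL p) env t) with hJ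
    obtain ⟨p', e1, e2, e3⟩ := exists_move' (d := r * p.length) (G := J.map (tfun p))
      (g := tfun p t0) (B := B) (fun g' hg' => by
        rcases List.mem_cons.1 hg' with rfl | hg'
        · exact tfun_cp p t0
        · obtain ⟨t, _, rfl⟩ := List.mem_map.1 hg'
          exact tfun_cp p t) (by
        refine le_trans (Nat.mul_le_mul_right _ ?_) hB
        rw [List.length_map]
        exact Nat.succ_le_succ (List.length_filter_le _ _)) (look env) D q hD3 (fun g' hg' => by
        obtain ⟨t, ht, rfl⟩ := List.mem_map.1 hg'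
        rw [hJ, List.mem_filter, passT_iff henv (le_refl _) hb] at ht
        exact ht.2) (by rw [ht0f]; exact hD4)
    obtain ⟨x, hx, hx2⟩ := cands_complete w D p' hD1 hD2 e1 e2
    have hxb := (cands_bound henv hx).1
    have hbet : betterG (tests r p.length) (passT r b (toL p)) env x = true := by
      unfold betterG
      rw [Bool.and_eq_true, List.all_eq_true, List.any_eq_true]
      constructor
      · intro t ht
        by_cases hn : passT r b (toL p) env t = true
        · have htJ : t ∈ J := by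
            rw [hJ, List.mem_filter]
            exact ⟨ht, hn⟩
          have h4 : passT r b (toL p) x t = true := by
            rw [passT_iff hxb (le_refl _) hb, hx2]
            exact e3 _ (List.mem_cons_of_mem _ (List.mem_map.2 ⟨t, htJ, rfl⟩))
          rw [h4]
          simp
        · simp [hn]
      · refine ⟨t0, ht0m, ?_⟩
        rw [Bool.and_eq_true, Bool.not_eq_true']
        constructor
        · rw [passT_iff hxb (le_refl _) hb, hx2]
          exact e3 _ List.mem_cons_self
        · rw [← Bool.not_eq_true, passT_iff henv (le_refl _) hb, not_not, ht0f]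
          exact h2
    rw [hmax x hx] at hbet
    exact absurd hbet (by simp)

/-! ### The algorithm -/

/-- The bound for the coordinates. -/
noncomputable def bndB (r : ℕ) (P : List LLet) : ℕ :=
  ((P.length + 1) * ((P.length + 1) * (mins r).length) + 1) * (r * P.length)

/-- The bound for the moduli. -/
noncomputable def bndb (r : ℕ) (P : List LLet) : ℕ := (bndM r (szP P) (bndB r P) + 5) ^ 4

/-- The point found by the search. -/
noncomputable def found (r w : ℕ) (P : List LLet) : Env :=
  climbG (tests r P.length) (passT r (bndb r P) P) w (bndB r P) (dedupN (P.map Prod.fst)) []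

/-- The algorithm. -/
noncomputable def answerP (r w : ℕ) (P : List LLet) : Bool :=
  nzT (r + 1) (bndb (r + 1) P) (found (r + 1) w P) P (fun _ : Fin 1 => 0) (fun _ : Fin 1 => 0)

theorem imin_one (g : Name → ℤ) (p : BP (r + 1)) :
    imin g p (fun _ : Fin 1 => 0) (fun _ : Fin 1 => 0) = imat g p 0 0 := by
  unfold imin
  rw [Matrix.det_fin_one]
  rfl

theorem eval_bpPoly (g : Name → ℤ) (p : BP (r + 1)) :
    MvPolynomial.eval g (bpPoly p) = imat g p 0 0 := by
  rw [← bpMat_eval]
  rfl

theorem answerP_sound {w : ℕ} {p : BP (r + 1)} (h : answerP r w (toL p) = true) :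
    bpPoly p ≠ 0 := by
  have h1 := nzT_sound h
  rw [imin_one, ← eval_bpPoly] at h1
  intro h0
  rw [h0, map_zero] at h1
  exact h1 rfl

theorem answerP_complete {k c w : ℕ} (hw : LSB (r + 1) k c w) {p : BP (r + 1)}
    (hp : p ∈ IdentBP (r + 1) k c) (hne : bpPoly p ≠ 0) : answerP r w (toL p) = true := by
  obtain ⟨g, hg⟩ : ∃ g : Name → ℤ, MvPolynomial.eval g (bpPoly p) ≠ 0 := by
    by_contra hcon
    push Not at hcon
    exact hne (MvPolynomial.funext (fun q => by rw [hcon q, map_zero]))
  rw [eval_bpPoly, ← imin_one] at hg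
  have hlen : (toL p).length = p.length := by unfold toL; rw [List.length_map]
  have hB : ((tests (r + 1) p.length).length + 1) * ((r + 1) * p.length) ≤
      bndB (r + 1) (toL p) := by
    unfold bndB
    rw [length_tests, hlen]
  obtain ⟨hb1, hb2⟩ := climbG_bound (T := tests (r + 1) (toL p).length)
    (P := passT (r + 1) (bndb (r + 1) (toL p)) (toL p)) (w := w) (B := bndB (r + 1) (toL p))
    (vs := dedupN ((toL p).map Prod.fst)) (p := []) (fun v => by rw [look_nil]; omega)
  have hmax := climbG_max (tests (r + 1) (toL p).length)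
    (passT (r + 1) (bndb (r + 1) (toL p)) (toL p)) w (bndB (r + 1) (toL p))
    (dedupN ((toL p).map Prod.fst)) []
  unfold answerP
  rw [show climbG (tests (r + 1) (toL p).length)
    (passT (r + 1) (bndb (r + 1) (toL p)) (toL p)) w (bndB (r + 1) (toL p))
    (dedupN ((toL p).map Prod.fst)) [] = found (r + 1) w (toL p) from rfl] at hb1 hb2 hmax
  set env := found (r + 1) w (toL p) with henv
  rw [hlen] at hmax
  have hgood := good_of_max hw hp hB (le_refl _) hb1 hmax p.length p (List.infix_refl p)
    (le_refl _) 1 (by omega) (fun _ => 0) (fun _ => 0)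
  rw [nzT_iff hb1 (le_refl _) (show (bndM (r + 1) (szP (toL p)) (bndB (r + 1) (toL p)) + 5) ^ 4 ≤
    bndb (r + 1) (toL p) from le_refl _) (by omega)]
  rcases hgood with h3 | h3
  · exfalso
    have h4 := h3 (fun v => if v ∈ p.map Prod.fst then ((g v : ℤ) : ℚ) else (look env v : ℚ))
      (fun v hv => by
        by_cases hvn : v ∈ p.map Prod.fst
        · exfalso
          apply hv
          rw [Set.mem_ofPred_eq, (dedupN_spec _).2]
          unfold toL
          rw [List.map_map]
          exact hvn
        · simp only [hvn, if_false])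
    apply hg
    have h5 : mnr id (fun _ : Fin 1 => (0 : Fin (r + 1))) (fun _ : Fin 1 => 0) (toW p)
        (fun v => if v ∈ p.map Prod.fst then ((g v : ℤ) : ℚ) else (look env v : ℚ)) =
        mnr id (fun _ : Fin 1 => 0) (fun _ : Fin 1 => 0) (toW p) (fun v => ((g v : ℤ) : ℚ)) := by
      unfold mnr
      rw [RW.wval_congr (q' := fun v => ((g v : ℤ) : ℚ)) (fun v hv => ?_)]
      obtain ⟨l, h6, h7⟩ := hv
      unfold toW at h6
      rw [List.mem_map] at h6
      obtain ⟨l', h8, rfl⟩ := h6
      have h9 : v ∈ p.map Prod.fst := List.mem_map.2 ⟨l', h8, h7⟩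
      simp only [h9, if_true]
    rw [h5, mnr_toW] at h4
    exact_mod_cast h4
  · have h2 : (fun v => ((look env v : ℕ) : ℚ)) = fun v => (((look env v : ℕ) : ℤ) : ℚ) := by
      funext v
      push_cast
      rfl
    rw [h2, mnr_toW] at h3
    exact_mod_cast h3

end Pool.Agent.PIT.RWA
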