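import Mathlib
import Pool.Agent.Work.RW.Alg
import Pool.Agent.Work.MP_3c5c20_lc.BRAlgPT

/-!
# The search for branching programs runs in polynomial time
-/

set_option autoImplicit false

namespace Pool.Agent.PIT.RWA

open Function Turing Pool.Agent.PT Pool.Agent.RW Pool.Agent.PIT.BR

/-! ### Decoding -/

/-- One step of the decoding of strings. -/
def ustep (s : List (List Bool) × (List Bool × Bool)) (b : Bool) :
    List (List Bool) × (List Bool × Bool) :=
  if s.2.2 then (s.1, (b :: s.2.1, false))
  else if b then (s.1, (s.2.1, true))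
  else (s.2.1 :: s.1, ([], false))

/-- The decoding of lists of strings. -/
def unblk (l : List Bool) : List (List Bool) :=
  ((l.foldl ustep ([], ([], false))).1.map List.reverse).reverse

theorem foldl_ustep_body (s : List Bool) : ∀ (done : List (List Bool)) (cur : List Bool),
    (s.flatMap (fun b => [true, b])).foldl ustep (done, (cur, false)) =
      (done, (s.reverse ++ cur, false)) := by
  induction s with
  | nil => intro done cur; simp
  | cons b s ih =>
    intro done cur
    rw [List.flatMap_cons, List.foldl_append]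
    have h1 : [true, b].foldl ustep (done, (cur, false)) = (done, (b :: cur, false)) := by
      simp [ustep]
    rw [h1, ih]
    simp

theorem foldl_ustep_blk (s : List Bool) (done : List (List Bool)) :
    (blk s).foldl ustep (done, ([], false)) = (s.reverse :: done, ([], false)) := by
  unfold blk
  rw [List.foldl_append, foldl_ustep_body]
  simp [ustep]

theorem unblk_blk (bl : List (List Bool)) : unblk (bl.flatMap blk) = bl := by
  have key : ∀ (bl done : List (List Bool)), (bl.flatMap blk).foldl ustep (done, ([], false)) =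
      ((bl.map List.reverse).reverse ++ done, ([], false)) := by
    intro bl
    induction bl with
    | nil => intro done; simp
    | cons s bl ih =>
      intro done
      rw [List.flatMap_cons, List.foldl_append, foldl_ustep_blk, ih]
      simp
  unfold unblk
  rw [key]
  simp [List.map_reverse]

/-- Grouping of the strings. -/
def chunk (r : ℕ) (bl : List (List Bool)) : List LLet :=
  (List.range (bl.length / (2 * (r * r) + 1))).map (fun t =>
    (bl.getD (t * (2 * (r * r) + 1) + 0) [],
      (List.range (2 * (r * r))).map (fun m => bl.getD (t * (2 * (r * r) + 1) + (m + 1)) [])))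

theorem chunk_strings {r : ℕ} (p : BP r) : chunk r (bpStrings p) = toL p := by
  set h : Name × (BMat r × BMat r) → List (List Bool) := fun l =>
    l.1 :: ((ents l.2.1).map (fun c => c.1 :: c.2) ++ (ents l.2.2).map (fun c => c.1 :: c.2))
    with hh
  have hlen : ∀ l, (h l).length = 2 * (r * r) + 1 := by
    intro l
    simp only [hh, List.length_cons, List.length_append, List.length_map, length_ents]
    omega
  have hstr : bpStrings p = p.flatMap h := rfl
  have htot : (bpStrings p).length = p.length * (2 * (r * r) + 1) := by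
    rw [hstr, List.length_flatMap]
    have h1 : p.map (fun l => (h l).length) = p.map (fun _ => 2 * (r * r) + 1) :=
      List.map_congr_left (fun l _ => hlen l)
    rw [h1, List.map_const', List.sum_replicate, smul_eq_mul]
  have hget : ∀ t (ht : t < p.length) m, m < 2 * (r * r) + 1 →
      (bpStrings p).getD (t * (2 * (r * r) + 1) + m) [] = (h p[t]).getD m [] := by
    intro t ht m hm
    rw [List.getD_eq_getElem?_getD, hstr, flatMap_getElem? _ _ _ (fun l _ => hlen l) t m hm,
      List.getElem?_eq_getElem ht, List.getD_eq_getElem?_getD]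
    rfl
  unfold chunk toL
  rw [htot, Nat.mul_div_cancel _ (Nat.succ_pos _)]
  refine List.ext_getElem (by simp) (fun t h1 h2 => ?_)
  have ht : t < p.length := by simpa using h1
  rw [List.getElem_map, List.getElem_map, List.getElem_range]
  rw [hget t ht 0 (by omega)]
  have h3 : (List.range (2 * (r * r))).map (fun m =>
      (bpStrings p).getD (t * (2 * (r * r) + 1) + (m + 1)) []) =
      (List.range (2 * (r * r))).map (fun m => (h p[t]).tail.getD m []) := by
    refine List.map_congr_left (fun m hm => ?_)
    rw [List.mem_range] at hm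
    rw [hget t ht (m + 1) (by omega)]
    simp [hh]
  rw [h3]
  have h4 : (List.range (2 * (r * r))).map (fun m => (h p[t]).tail.getD m []) = (h p[t]).tail := by
    have h5 : (h p[t]).tail.length = 2 * (r * r) := by
      rw [List.length_tail, hlen]
      omega
    refine List.ext_getElem (by simp [h5]) (fun m k1 k2 => ?_)
    rw [List.getElem_map, List.getElem_range, List.getD_eq_getElem?_getD,
      List.getElem?_eq_getElem k2]
    rfl
  rw [h4]
  rfl

/-- The decoding of programs. -/
def decP (r : ℕ) (l : List Bool) : List LLet := chunk r (unblk l)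

theorem decP_code {r : ℕ} (p : BP r) : decP r (bpCode p) = toL p := by
  unfold decP bpCode
  rw [unblk_blk, chunk_strings]

section

variable {α : Type} [Enc α]

theorem unblk_ptf {l : α → List Bool} (hl : PTF l) : PTF (fun a => unblk (l a)) := by
  unfold unblk
  refine PTF.reverse (PTF.map (g := fun p : α × List Bool => p.2.reverse) (PTF.fst.comp ?_)
    PTF.snd.reverse)
  refine PTF.foldl_add (l := l) (init := fun _ => (([], ([], false)) :
    List (List Bool) × (List Bool × Bool))) (step := fun p : α × ((List (List Bool) ×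
      (List Bool × Bool)) × Bool) => ustep p.2.1 p.2.2) hl (PTF.const _) ?_ (fun _ => 10)
    (PB.const 10) (fun a s b _ => ?_)
  · unfold ustep
    have hs : PTF (fun p : α × ((List (List Bool) × (List Bool × Bool)) × Bool) => p.2.1) :=
      PTF.fst.comp PTF.snd
    have hb : PTF (fun p : α × ((List (List Bool) × (List Bool × Bool)) × Bool) => p.2.2) :=
      PTF.snd.comp PTF.snd
    have h1 := PTF.fst.comp hs
    have h2 := PTF.fst.comp (PTF.snd.comp hs)
    have h3 := PTF.snd.comp (PTF.snd.comp hs)
    exact h3.cond (h1.pair ((hb.cons h2).pair (PTF.const false)))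
      (hb.cond (h1.pair (h2.pair (PTF.const true)))
        ((h2.cons h1).pair ((PTF.const []).pair (PTF.const false))))
  · obtain ⟨s1, s2, s3⟩ := s
    show sz (ustep (s1, (s2, s3)) b) ≤ sz (s1, (s2, s3)) + 10
    unfold ustep
    have hb := sz_bool b
    have h3 := sz_pos s3
    have e1 := sz_pair s1 (s2, s3)
    have e2 := sz_pair s2 s3
    have hf : sz false ≤ 3 := sz_bool false
    have ht : sz true ≤ 3 := sz_bool true
    dsimp only
    split_ifs
    · rw [sz_pair, sz_pair, sz_cons]
      omega
    · rw [sz_pair, sz_pair]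
      omega
    · rw [sz_pair, sz_pair, sz_cons, sz_nil]
      omega

theorem chunk_ptf {l : α → List (List Bool)} (hl : PTF l) (r : ℕ) :
    PTF (fun a => chunk r (l a)) := by
  unfold chunk
  refine PTF.map (l := fun a => List.range ((l a).length / (2 * (r * r) + 1)))
    (g := fun p : α × ℕ => ((l p.1).getD (p.2 * (2 * (r * r) + 1) + 0) [],
      (List.range (2 * (r * r))).map (fun m => (l p.1).getD (p.2 * (2 * (r * r) + 1) + (m + 1)) [])))
    (hl.length.div (PTF.const _)).range ?_
  refine PTF.pair ((hl.comp PTF.fst).getD ((PTF.snd.mul (PTF.const _)).add (PTF.const 0))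
    (PTF.const [])) ?_
  exact PTF.map (l := fun _ : α × ℕ => List.range (2 * (r * r)))
    (g := fun z : (α × ℕ) × ℕ => (l z.1.1).getD (z.1.2 * (2 * (r * r) + 1) + (z.2 + 1)) [])
    (PTF.const _) ((hl.comp (PTF.fst.comp PTF.fst)).getD (((PTF.snd.comp PTF.fst).mul
      (PTF.const _)).add PTF.snd.succ) (PTF.const []))

theorem decP_ptf (r : ℕ) : PTF (decP r) := chunk_ptf (unblk_ptf PTF.id) r

/-! ### Constant lists -/

theorem sum_const_ptf {τ : Type} (T : List τ) (g : τ → α → ℕ) (h : ∀ x, PTF (g x)) :
    PTF (fun a => (T.map (fun x => g x a)).sum) := by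
  induction T with
  | nil => exact PTF.const 0
  | cons x T ih => exact ((h x).add ih).congr (fun a => by simp)

theorem prod_const_ptf {τ : Type} (T : List τ) (g : τ → α → ℕ) (h : ∀ x, PTF (g x)) :
    PTF (fun a => (T.map (fun x => g x a)).prod) := by
  induction T with
  | nil => exact PTF.const 1
  | cons x T ih => exact ((h x).mul ih).congr (fun a => by simp)

theorem all_const_ptf {τ : Type} (T : List τ) (g : τ → α → Bool) (h : ∀ x, PTF (g x)) :
    PTF (fun a => T.all (fun x => g x a)) := by
  induction T with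
  | nil => exact PTF.const true
  | cons x T ih => exact ((h x).and ih).congr (fun a => by simp)

theorem any_const_ptf {τ : Type} (T : List τ) (g : τ → α → Bool) (h : ∀ x, PTF (g x)) :
    PTF (fun a => T.any (fun x => g x a)) := by
  induction T with
  | nil => exact PTF.const false
  | cons x T ih => exact ((h x).or ih).congr (fun a => by simp)

/-! ### Evaluation -/

theorem ivm_ptf {q : α → ℕ} {s : α → List Bool} (hq : PTF q) (hs : PTF s) :
    PTF (fun a => ivm (q a + 1) (s a)) := by
  unfold ivm
  exact (hs.headD (PTF.const false)).cond ((hq.succ.sub (nmod_ptf hq hs.tail)).mod hq.succ)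
    (nmod_ptf hq hs.tail)

theorem ent_ptf {q m : α → ℕ} {env : α → Env} {l : α → LLet} (r : ℕ) (hq : PTF q) (he : PTF env)
    (hl : PTF l) (hm : PTF m) : PTF (fun a => ent r (q a + 1) (env a) (l a) (m a)) := by
  unfold ent
  have h2 : PTF (fun a => (l a).2) := PTF.snd.comp hl
  exact ((ivm_ptf hq (h2.getD hm (PTF.const []))).add
    ((ivm_ptf hq (h2.getD ((PTF.const (r * r)).add hm) (PTF.const []))).mul
      (look_ptf he (PTF.fst.comp hl)))).mod hq.succ

theorem mstep_ptf {q : α → ℕ} {env : α → Env} {M : α → List ℕ} {l : α → LLet} (r : ℕ)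
    (hq : PTF q) (he : PTF env) (hM : PTF M) (hl : PTF l) :
    PTF (fun a => mstep r (q a + 1) (env a) (M a) (l a)) := by
  unfold mstep
  refine PTF.map (l := fun _ : α => List.range (r * r)) (g := fun p : α × ℕ =>
    (((List.range r).map (fun x => (M p.1).getD ((p.2 / r) * r + x) 0 *
      ent r (q p.1 + 1) (env p.1) (l p.1) (x * r + p.2 % r))).sum) % (q p.1 + 1)) (PTF.const _) ?_
  refine (sum_const_ptf (List.range r) (fun x (p : α × ℕ) =>
    (M p.1).getD ((p.2 / r) * r + x) 0 *
      ent r (q p.1 + 1) (env p.1) (l p.1) (x * r + p.2 % r)) (fun x => ?_)).mod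
    (hq.comp PTF.fst).succ
  exact ((hM.comp PTF.fst).getD (((PTF.snd.div (PTF.const r)).mul (PTF.const r)).add
    (PTF.const x)) (PTF.const 0)).mul (ent_ptf r (hq.comp PTF.fst) (he.comp PTF.fst)
      (hl.comp PTF.fst) ((PTF.const (x * r)).add (PTF.snd.mod (PTF.const r))))

theorem sz_mstep_le (r q : ℕ) (env : Env) (M : List ℕ) (l : LLet) :
    sz (mstep r (q + 1) env M l) ≤ (r * r) * (2 * q + 2) + 1 := by
  unfold mstep
  refine (sz_list_le (K := 2 * q + 1) (fun b hb => ?_)).trans ?_
  · rw [List.mem_map] at hb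
    obtain ⟨m, _, rfl⟩ := hb
    rw [sz_nat]
    have : ((List.range r).map (fun x => M.getD ((m / r) * r + x) 0 *
        ent r (q + 1) env l (x * r + m % r))).sum % (q + 1) < q + 1 :=
      Nat.mod_lt _ (Nat.succ_pos q)
    omega
  · rw [List.length_map, List.length_range]

theorem evalP_ptf {q : α → ℕ} {env : α → Env} {P : α → List LLet} (r : ℕ)
    (hq : PTF q) (he : PTF env) (hP : PTF P) :
    PTF (fun a => evalP r (q a + 1) (env a) (P a)) := by
  unfold evalP
  refine PTF.foldl_add (l := P) (init := fun _ => identL r) (step := fun p : α × (List ℕ × LLet) =>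
    mstep r (q p.1 + 1) (env p.1) p.2.1 p.2.2) hP (PTF.const _)
    (mstep_ptf r (hq.comp PTF.fst) (he.comp PTF.fst) (PTF.fst.comp PTF.snd)
      (PTF.snd.comp PTF.snd)) (fun a => (r * r) * (sz (q a) + 2) + 1)
    (((PB.const (r * r)).mul (hq.size.add (PB.const 2))).add (PB.const 1)) (fun a s b _ => ?_)
  refine (sz_mstep_le r (q a) (env a) s b).trans ?_
  have h1 : sz (q a) = 2 * q a + 1 := sz_nat _
  have h2 : (r * r) * (2 * q a + 2) ≤ (r * r) * (sz (q a) + 2) :=
    Nat.mul_le_mul_left _ (by omega)
  omega

theorem minT_ptf {q : α → ℕ} {M : α → List ℕ} (r : ℕ) (hq : PTF q) (hM : PTF M) {j : ℕ}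
    (e f : Fin j → Fin r) : PTF (fun a => minT r (q a + 1) (M a) e f) := by
  unfold minT
  refine (sum_const_ptf _ (fun (σ : Equiv.Perm (Fin j)) (a : α) =>
    (if Equiv.Perm.sign σ = 1 then 1 else q a + 1 - 1) *
      ((List.finRange j).map (fun i => (M a).getD ((e (σ i) : ℕ) * r + (f i : ℕ)) 0)).prod)
    (fun σ => ?_)).mod hq.succ
  refine PTF.mul ?_ (prod_const_ptf (List.finRange j) (fun i (a : α) =>
    (M a).getD ((e (σ i) : ℕ) * r + (f i : ℕ)) 0) (fun i => hM.getD (PTF.const _) (PTF.const 0)))
  by_cases hs : Equiv.Perm.sign σ = 1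
  · simp only [hs, if_true]
    exact PTF.const 1
  · simp only [hs, if_false]
    exact hq.succ.sub (PTF.const 1)

theorem nzT_ptf {b : α → ℕ} {env : α → Env} {P : α → List LLet} (r : ℕ) (hb : PTF b)
    (he : PTF env) (hP : PTF P) {j : ℕ} (e f : Fin j → Fin r) :
    PTF (fun a => nzT r (b a) (env a) (P a) e f) := by
  unfold nzT
  exact PTF.any (l := fun a => List.range (b a))
    (p := fun z : α × ℕ => !decide (minT r (z.2 + 1) (evalP r (z.2 + 1) (env z.1) (P z.1)) e f = 0))
    hb.range ((minT_ptf r PTF.snd (evalP_ptf r PTF.snd (he.comp PTF.fst)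
      (hP.comp PTF.fst)) e f).eq (PTF.const 0)).not

theorem lseg_ptf {β : Type} [Enc β] {P : α → List β} {x y : α → ℕ} (hP : PTF P) (hx : PTF x)
    (hy : PTF y) : PTF (fun a => lseg (P a) (x a) (y a)) := by
  unfold lseg
  exact (hP.drop hx).take (hy.sub hx)

theorem tests_all (r m : ℕ) (Q : ℕ × (ℕ × Mu r) → Bool) : (tests r m).all Q =
    (List.range (m + 1)).all (fun a => (List.range (m + 1)).all (fun b =>
      (mins r).all (fun μ => Q (a, (b, μ))))) := by
  unfold tests
  simp only [List.all_flatMap, List.all_map]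
  rfl

theorem tests_any (r m : ℕ) (Q : ℕ × (ℕ × Mu r) → Bool) : (tests r m).any Q =
    (List.range (m + 1)).any (fun a => (List.range (m + 1)).any (fun b =>
      (mins r).any (fun μ => Q (a, (b, μ))))) := by
  unfold tests
  simp only [List.any_flatMap, List.any_map]
  rfl

theorem betterG_ptf {b : α → ℕ} {P : α → List LLet} {p c : α → Env} (r : ℕ) (hb : PTF b)
    (hP : PTF P) (hp : PTF p) (hc : PTF c) :
    PTF (fun a => betterG (tests r (P a).length) (passT r (b a) (P a)) (p a) (c a)) := by
  unfold betterG
  simp only [tests_all, tests_any]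
  have htest : ∀ (env : α → Env), PTF env → ∀ μ : Mu r, PTF (fun z : (α × ℕ) × ℕ =>
      passT r (b z.1.1) (P z.1.1) (env z.1.1) (z.1.2, (z.2, μ))) := by
    intro env he μ
    unfold passT
    exact nzT_ptf r (hb.comp (PTF.fst.comp PTF.fst)) (he.comp (PTF.fst.comp PTF.fst))
      (lseg_ptf (hP.comp (PTF.fst.comp PTF.fst)) (PTF.snd.comp PTF.fst) PTF.snd) μ.2.1 μ.2.2
  refine PTF.and ?_ ?_
  · refine PTF.all (l := fun a => List.range ((P a).length + 1)) (p := fun y : α × ℕ =>
      (List.range ((P y.1).length + 1)).all (fun d => (mins r).all (fun μ =>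
        !passT r (b y.1) (P y.1) (p y.1) (y.2, (d, μ)) ||
          passT r (b y.1) (P y.1) (c y.1) (y.2, (d, μ))))) hP.length.succ.range ?_
    refine PTF.all (l := fun y : α × ℕ => List.range ((P y.1).length + 1))
      (p := fun z : (α × ℕ) × ℕ => (mins r).all (fun μ =>
        !passT r (b z.1.1) (P z.1.1) (p z.1.1) (z.1.2, (z.2, μ)) ||
          passT r (b z.1.1) (P z.1.1) (c z.1.1) (z.1.2, (z.2, μ))))
      (hP.comp PTF.fst).length.succ.range ?_
    exact all_const_ptf _ _ (fun μ => (htest p hp μ).not.or (htest c hc μ))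
  · refine PTF.any (l := fun a => List.range ((P a).length + 1)) (p := fun y : α × ℕ =>
      (List.range ((P y.1).length + 1)).any (fun d => (mins r).any (fun μ =>
        passT r (b y.1) (P y.1) (c y.1) (y.2, (d, μ)) &&
          !passT r (b y.1) (P y.1) (p y.1) (y.2, (d, μ))))) hP.length.succ.range ?_
    refine PTF.any (l := fun y : α × ℕ => List.range ((P y.1).length + 1))
      (p := fun z : (α × ℕ) × ℕ => (mins r).any (fun μ =>
        passT r (b z.1.1) (P z.1.1) (c z.1.1) (z.1.2, (z.2, μ)) &&
          !passT r (b z.1.1) (P z.1.1) (p z.1.1) (z.1.2, (z.2, μ))))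
      (hP.comp PTF.fst).length.succ.range ?_
    exact any_const_ptf _ _ (fun μ => (htest c hc μ).and (htest p hp μ).not)

theorem moveG_ptf {b B : α → ℕ} {P : α → List LLet} {vs : α → List Name} {p : α → Env}
    (r w : ℕ) (hb : PTF b) (hB : PTF B) (hP : PTF P) (hv : PTF vs) (hp : PTF p) :
    PTF (fun a => moveG (tests r (P a).length) (passT r (b a) (P a)) w (B a) (vs a) (p a)) := by
  unfold moveG
  refine PTF.headD (PTF.filter (l := fun a => cands (vs a) (B a) w (p a))
    (p := fun z : α × Env => betterG (tests r (P z.1).length) (passT r (b z.1) (P z.1)) (p z.1) z.2)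
    (cands_ptf hv hB hp w) ?_) hp
  exact betterG_ptf r (hb.comp PTF.fst) (hP.comp PTF.fst) (hp.comp PTF.fst) PTF.snd

theorem sz_moveG_le {τ : Type} (T : List τ) (Q : Env → τ → Bool) (w B : ℕ) (vs : List Name)
    (p : Env) : sz (moveG T Q w B vs p) ≤ sz p + w * (sz vs + 2 * B + 4) := by
  rcases moveG_cases T Q w B vs p with h | h
  · rw [h.1]; omega
  · exact sz_cands_le h.1

theorem climbG_ptf {b B : α → ℕ} {P : α → List LLet} {vs : α → List Name} {p : α → Env}
    (r w : ℕ) (hb : PTF b) (hB : PTF B) (hP : PTF P) (hv : PTF vs) (hp : PTF p) :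
    PTF (fun a => climbG (tests r (P a).length) (passT r (b a) (P a)) w (B a) (vs a) (p a)) := by
  unfold climbG
  have hlen : PTF (fun a => (tests r (P a).length).length + 1) := by
    simp only [length_tests]
    exact (hP.length.succ.mul (hP.length.succ.mul (PTF.const _))).succ
  refine PTF.nat_iterate_add (n := fun a => (tests r (P a).length).length + 1) (init := p)
    (step := fun z : α × Env => moveG (tests r (P z.1).length) (passT r (b z.1) (P z.1)) w
      (B z.1) (vs z.1) z.2)
    hlen hp (moveG_ptf r w (hb.comp PTF.fst) (hB.comp PTF.fst) (hP.comp PTF.fst)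
      (hv.comp PTF.fst) PTF.snd)
    (fun a => w * (sz (vs a) + sz (B a) + 4)) ((PB.const w).mul ((hv.size.add hB.size).add
      (PB.const 4))) (fun a s => ?_)
  refine (sz_moveG_le _ _ w (B a) (vs a) s).trans ?_
  have : sz (B a) = 2 * B a + 1 := sz_nat _
  exact Nat.add_le_add_left (Nat.mul_le_mul_left _ (by omega)) _

theorem szP_ptf {P : α → List LLet} (hP : PTF P) : PTF (fun a => szP (P a)) := by
  unfold szP
  refine PTF.sum (PTF.map (g := fun p : α × LLet => (p.2.2.map List.length).sum + 1) hP ?_)
  exact (PTF.sum (PTF.map (l := fun p : α × LLet => p.2.2)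
    (g := fun z : (α × LLet) × List Bool => z.2.length) (PTF.snd.comp PTF.snd)
    PTF.snd.length)).succ

theorem bndB_ptf {P : α → List LLet} (r : ℕ) (hP : PTF P) : PTF (fun a => bndB r (P a)) := by
  unfold bndB
  exact ((hP.length.succ.mul (hP.length.succ.mul (PTF.const _))).succ).mul
    ((PTF.const r).mul hP.length)

theorem bndb_ptf {P : α → List LLet} (r : ℕ) (hP : PTF P) : PTF (fun a => bndb r (P a)) := by
  unfold bndb bndM
  have h1 : PTF (fun a => szP (P a) + 2) := (szP_ptf hP).succ.succ
  have h2 : PTF (fun a => bndB r (P a) + (r + 1) * ((szP (P a) + 2) * (szP (P a) + 2)) + 5) :=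
    ((bndB_ptf r hP).add ((PTF.const (r + 1)).mul (h1.mul h1))).succ.succ.succ.succ.succ
  exact PTF.pow_const h2 4

theorem answerP_ptf {P : α → List LLet} (r w : ℕ) (hP : PTF P) :
    PTF (fun a => answerP r w (P a)) := by
  unfold answerP found
  have hvs : PTF (fun a => dedupN ((P a).map Prod.fst)) :=
    dedupN_ptf (PTF.map (g := fun p : α × LLet => p.2.1) hP (PTF.fst.comp PTF.snd))
  exact nzT_ptf (r + 1) (bndb_ptf (r + 1) hP) (climbG_ptf (r + 1) w (bndb_ptf (r + 1) hP)
    (bndB_ptf (r + 1) hP) hP hvs (PTF.const [])) hP _ _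

end

/-- A polynomial-time machine. -/
theorem exists_machineP (r w : ℕ) : Nonempty (TM2ComputableInPolyTime (bpCode (r := r + 1))
    (fun b : Bool => [b]) (fun p => answerP r w (toL p))) := by
  have h1 : PTF (fun l : List Bool => [answerP r w (decP (r + 1) l)]) :=
    (answerP_ptf r w (decP_ptf (r + 1))).cons (PTF.const [])
  obtain ⟨M⟩ := h1.tm2_raw
  refine ⟨{ M with outputsFun := fun s => ?_ }⟩
  have h2 := M.outputsFun (bpCode s)
  rw [decP_code] at h2
  exact h2

/-- **Main theorem.** -/
theorem mainP (r k c : ℕ) : ∃ f : BP (r + 1) → Bool,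
    Nonempty (TM2ComputableInPolyTime bpCode (fun b : Bool => [b]) f) ∧
    (∀ p, f p = true → bpPoly p ≠ 0) ∧
    ∀ p ∈ IdentBP (r + 1) k c, bpPoly p ≠ 0 → f p = true := by
  obtain ⟨w, hw⟩ := exists_lsb (r + 1) k c
  exact ⟨fun p => answerP r w (toL p), exists_machineP r w, fun p => answerP_sound,
    fun p hp h => answerP_complete hw hp h⟩

end Pool.Agent.PIT.RWA
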