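import Mathlib
import Pool.Agent.Work.RW.Lang
import Pool.Agent.Work.RK.ThinRead

/-!
# Programs in which all but few variables are read few times
-/

set_option autoImplicit false

namespace Pool.Agent.PIT

/-- The occurrences of the variables outside of `H` are numbered. -/
def spreadP {r : ℕ} (H : Name → Bool) : ℕ → BP r → BP r
  | _, [] => []
  | o, l :: p => (TH.tag l.1 (if H l.1 then 0 else o + 1), l.2) :: spreadP H (o + 1) p

theorem spreadP_fst {r : ℕ} (H : Name → Bool) (p : BP r) : ∀ o,
    (spreadP H o p).map Prod.fst = TH.spreadL H o (p.map Prod.fst) := by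
  induction p with
  | nil => intro o; rfl
  | cons l p ih =>
    intro o
    rw [spreadP, List.map_cons, ih, List.map_cons, TH.spreadL]

theorem spreadP_untag {r : ℕ} (H : Name → Bool) (p : BP r) : ∀ o,
    (spreadP H o p).map (fun l => (TH.untag l.1, l.2)) = p := by
  induction p with
  | nil => intro o; rfl
  | cons l p ih =>
    intro o
    rw [spreadP, List.map_cons, ih, TH.untag_tag]

/-- If all but at most `c` variables occur in at most `k` of the matrices of a program, then it
arises from a program with at most `c` variables on both sides of each cut by identifying at most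
`k` variables at a time. -/
theorem identBP_of_count {r k c : ℕ} (hk : 1 ≤ k) {p : BP r}
    (h : Set.encard {v : Name | k < (p.map Prod.fst).count v} ≤ c) : p ∈ IdentBP r k c := by
  classical
  set H : Name → Bool := fun v => decide (k < (p.map Prod.fst).count v) with hH
  refine ⟨spreadP H 0 p, TH.untag, fun p1 p2 hp => ?_, fun v => ?_, (spreadP_untag H p 0).symm⟩
  · refine le_trans ?_ h
    refine (Set.encard_le_encard ?_).trans
      (Set.encard_image_le (fun v => TH.tag v 0) {v : Name | k < (p.map Prod.fst).count v})
    rintro u ⟨h1, h2⟩
    have h0 := spreadP_fst H p 0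
    rw [hp, List.map_append] at h0
    have h3 : u ∈ TH.spreadL H 0 (p.map Prod.fst) := by
      rw [← h0, List.mem_append]
      exact Or.inl h1
    obtain ⟨v, _, h4 | ⟨h4, j, h5, h6⟩⟩ := TH.mem_spreadL h3
    · refine ⟨v, ?_, h4.2.symm⟩
      simpa [hH] using h4.1
    · rw [h6] at h1 h2
      have h7 := TH.count_spreadL h4 j (p.map Prod.fst) 0
      rw [← h0, List.count_append] at h7
      have h8 := List.count_pos_iff.2 h1
      have h9 := List.count_pos_iff.2 h2
      omega
  · rw [spreadP_fst]
    refine (TH.encard_spreadL v (p.map Prod.fst) 0).trans ?_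
    cases hv : H v with
    | true =>
      simp only [if_true]
      exact_mod_cast hk
    | false =>
      simp only [Bool.false_eq_true, if_false]
      have : ¬ k < (p.map Prod.fst).count v := by simpa [hH] using hv
      exact_mod_cast not_lt.1 this

end Pool.Agent.PIT
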